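import Pool.Agent.Lib.MP_d95e25_ag.Defs

/-!
# Algebra for MP_d95e25_ag
-/

open MvPolynomial

namespace Pool.Agent.Lib.MP_d95e25_ag

universe u

noncomputable section

section general

variable {F A : Type*} [Field F] [CommRing A] [Algebra A F] {p : ℕ} [hp : Fact p.Prime]

omit hp in
theorem isIntegral_aeval {y : F} (hy : IsIntegral A y) (g : Polynomial A) :
    IsIntegral A (Polynomial.aeval y g) :=
  adjoin_le_integralClosure hy (Polynomial.aeval_mem_adjoin_singleton _ _)

omit hp in
theorem isAlgebraic_div [IsDomain A] {S : Type*} [CommRing S] [IsDomain S] [Algebra S F] [IsFractionRing S F]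
    (h : ∀ s : S, IsIntegral A (algebraMap S F s)) : Algebra.IsAlgebraic A F := by
  refine ⟨fun z => ?_⟩
  obtain ⟨a, b, hb, rfl⟩ := IsFractionRing.div_surjective (A := S) z
  rw [div_eq_mul_inv]
  exact (h a).isAlgebraic.mul (h b).isAlgebraic.inv

theorem monic_aux (a b : A) [Nontrivial A] :
    (Polynomial.X ^ p - (Polynomial.C a * Polynomial.X + Polynomial.C b)).Monic ∧
    (Polynomial.X ^ p - (Polynomial.C a * Polynomial.X + Polynomial.C b)).natDegree = p := by
  have h : (Polynomial.C a * Polynomial.X + Polynomial.C b).degree < ((p : ℕ) : WithBot ℕ) := by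
    refine lt_of_le_of_lt Polynomial.degree_linear_le ?_
    exact_mod_cast hp.out.one_lt
  refine ⟨Polynomial.monic_X_pow_sub h, ?_⟩
  apply Polynomial.natDegree_eq_of_degree_eq_some
  rw [Polynomial.degree_sub_eq_left_of_degree_lt, Polynomial.degree_X_pow]
  rwa [Polynomial.degree_X_pow]

/-- An element which is a polynomial in `y` over `A` and is fixed by an automorphism `τ` fixing
`A` with `τ y = y + x` lies in `A`, if `y` is a root of `X ^ p - x^(p-1) X - b` over `A`. -/
theorem mem_range_of_fixed [CharP F p] (τ : F →+* F)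
    (hτ : ∀ a : A, τ (algebraMap A F a) = algebraMap A F a) {x y : F} (hx0 : x ≠ 0)
    (hy : τ y = y + x) (hx : τ x = x) {a b : A} (ha : algebraMap A F a = x ^ (p - 1))
    (hb : algebraMap A F b = y ^ p - x ^ (p - 1) * y) {f : F} (hf : τ f = f)
    {g : Polynomial A} (hg : Polynomial.aeval y g = f) : f ∈ (algebraMap A F).range := by
  have : Nontrivial A := (algebraMap A F).domain_nontrivial
  set M : Polynomial A := Polynomial.X ^ p - (Polynomial.C a * Polynomial.X + Polynomial.C b)
    with hM
  have hMr : Polynomial.aeval y M = 0 := by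
    simp only [hM, map_sub, map_add, map_mul, map_pow, Polynomial.aeval_X, Polynomial.aeval_C,
      ha, hb]
    ring
  obtain ⟨r, hr, hrd⟩ : ∃ r : Polynomial A, Polynomial.aeval y r = f ∧ r.natDegree < p := by
    refine ⟨g %ₘ M, ?_, ?_⟩
    · rw [Polynomial.aeval_modByMonic_eq_self_of_root hMr, hg]
    · conv_rhs => rw [← (monic_aux (p := p) a b).2]
      apply Polynomial.natDegree_modByMonic_lt _ (monic_aux a b).1
      intro h
      have h2 := (monic_aux (p := p) a b).2
      rw [h, Polynomial.natDegree_one] at h2
      exact hp.out.ne_zero h2.symm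
  have hcomp : τ.comp (algebraMap A F) = algebraMap A F := RingHom.ext hτ
  have hstep : ∀ n : ℕ, Polynomial.aeval (y + n * x) r = f := by
    intro n
    induction n with
    | zero => simpa using hr
    | succ n ih =>
      have h1 := congrArg τ ih
      rw [hf] at h1
      rw [← h1, Polynomial.aeval_def, Polynomial.aeval_def, Polynomial.hom_eval₂, hcomp]
      congr 1
      rw [map_add, map_mul, map_natCast, hy, hx, Nat.cast_add, Nat.cast_one]
      ring
  have hq : r.map (algebraMap A F) - Polynomial.C f = 0 := by
    apply Polynomial.eq_zero_of_natDegree_lt_card_of_eval_eq_zero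
      (f := fun n : Fin p => (y + ((n : ℕ) : F) * x))
    · intro a b hab
      have h3 : ((a : ℕ) : F) = ((b : ℕ) : F) := by
        simpa [hx0] using hab
      exact Fin.ext (CharP.natCast_injOn_Iio F p a.2 b.2 h3)
    · intro n
      rw [Polynomial.eval_sub, Polynomial.eval_C, Polynomial.eval_map, ← Polynomial.aeval_def,
        hstep, sub_self]
    · rw [Fintype.card_fin, Polynomial.natDegree_sub_C]
      exact lt_of_le_of_lt Polynomial.natDegree_map_le hrd
  have h0 := congrArg (fun q => Polynomial.coeff q 0) hq
  simp only [Polynomial.coeff_sub, Polynomial.coeff_map, Polynomial.coeff_C_zero,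
    Polynomial.coeff_zero, sub_eq_zero] at h0
  exact ⟨_, h0⟩

end general

variable {p : ℕ} {k : Type u} [Field k]

theorem genAct_X (v : Fin 2 × Fin p) : genAct p k (X v) =
    ∑ w, C (genMatrix p k v w) * X w := by
  simp [genAct]

theorem genAct_X_zero (i : Fin p) : genAct p k (X (0, i)) = X (0, i) + X (1, i) := by
  rw [genAct_X, Fintype.sum_prod_type, Fin.sum_univ_two]
  simp [genMatrix, Matrix.blockDiagonal_apply, Finset.sum_ite_eq, apply_ite, ite_mul]

theorem genAct_X_one (i : Fin p) : genAct p k (X (1, i)) = X (1, i) := by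
  rw [genAct_X, Fintype.sum_prod_type, Fin.sum_univ_two]
  simp [genMatrix, Matrix.blockDiagonal_apply, Finset.sum_ite_eq, apply_ite, ite_mul]

/-- The inverse of the generator. -/
def genActInv (p : ℕ) (k : Type u) [Field k] : CoordRing p k →ₐ[k] CoordRing p k :=
  MvPolynomial.aeval fun v => if v.1 = 0 then X (0, v.2) - X (1, v.2) else X (1, v.2)

theorem genActInv_X_zero (i : Fin p) : genActInv p k (X (0, i)) = X (0, i) - X (1, i) := by
  simp [genActInv]

theorem genActInv_X_one (i : Fin p) : genActInv p k (X (1, i)) = X (1, i) := by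
  simp [genActInv]

theorem genActInv_comp : (genActInv p k).comp (genAct p k) = AlgHom.id k _ := by
  apply MvPolynomial.algHom_ext
  rintro ⟨a, i⟩
  fin_cases a
  · simp [genAct_X_zero, genActInv_X_zero, genActInv_X_one]
  · simp [genAct_X_one, genActInv_X_one]

theorem genAct_injective : Function.Injective (genAct p k) := by
  have h : ∀ f, genActInv p k (genAct p k f) = f := fun f =>
    DFunLike.congr_fun (genActInv_comp (p := p) (k := k)) f
  exact Function.LeftInverse.injective h

theorem mem_invariants {f : CoordRing p k} : f ∈ invariants p k ↔ genAct p k f = f := by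
  simp [invariants, AlgHom.mem_equalizer]

theorem X_one_mem (i : Fin p) : (X (1, i) : CoordRing p k) ∈ invariants p k :=
  mem_invariants.2 (genAct_X_one i)


section field

variable (k) (F : Type u) [Field F] [Algebra (CoordRing p k) F]

/-- `x_i` in the function field `F` of `V`. -/
def xx (i : Fin p) : F := algebraMap (CoordRing p k) F (X (1, i))

/-- `y_i` in the function field `F` of `V`. -/
def yy (i : Fin p) : F := algebraMap (CoordRing p k) F (X (0, i))

/-- The coordinates of the `i`-th chart of the resolution:
`VV i (1, i) = x_i`, `VV i (1, j) = x_j / x_i`, `VV i (0, i) = y_i ^ p - x_i ^ (p-1) y_i`,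
`VV i (0, j) = y_j - (x_j / x_i) y_i`. -/
def VV (i : Fin p) (v : Fin 2 × Fin p) : F :=
  if v.1 = 1 then (if v.2 = i then xx k F i else xx k F v.2 / xx k F i)
  else (if v.2 = i then yy k F i ^ p - xx k F i ^ (p - 1) * yy k F i
    else yy k F v.2 - xx k F v.2 / xx k F i * yy k F i)

theorem VV_one_self (i : Fin p) : VV k F i (1, i) = xx k F i := by simp [VV]

theorem VV_one {i j : Fin p} (h : j ≠ i) : VV k F i (1, j) = xx k F j / xx k F i := by
  simp [VV, h]

theorem VV_zero_self (i : Fin p) :
    VV k F i (0, i) = yy k F i ^ p - xx k F i ^ (p - 1) * yy k F i := by simp [VV]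

theorem VV_zero {i j : Fin p} (h : j ≠ i) :
    VV k F i (0, j) = yy k F j - xx k F j / xx k F i * yy k F i := by
  simp [VV, h]

section

variable [IsFractionRing (CoordRing p k) F]

theorem algebraMap_FF_injective : Function.Injective (algebraMap (CoordRing p k) F) :=
  IsFractionRing.injective _ _

theorem xx_ne_zero (i : Fin p) : xx k F i ≠ 0 := by
  unfold xx
  rw [Ne, map_eq_zero_iff _ (algebraMap_FF_injective k F)]
  exact X_ne_zero _

end

variable [Algebra k F]

/-- The ring of the `i`-th chart of the resolution. -/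
def CC (i : Fin p) : Subalgebra k F := Algebra.adjoin k (Set.range (VV k F i))

theorem VV_mem (i : Fin p) (v : Fin 2 × Fin p) : VV k F i v ∈ CC k F i :=
  Algebra.subset_adjoin ⟨v, rfl⟩

theorem xx_mem_self (i : Fin p) : xx k F i ∈ CC k F i := by
  rw [← VV_one_self]; exact VV_mem _ _ _ _

theorem norm_mem (i : Fin p) : (yy k F i ^ p - xx k F i ^ (p - 1) * yy k F i) ∈ CC k F i := by
  rw [← VV_zero_self]; exact VV_mem _ _ _ _

variable [IsFractionRing (CoordRing p k) F]

theorem xx_div_mem (i j : Fin p) : xx k F j / xx k F i ∈ CC k F i := by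
  by_cases h : j = i
  · rw [h, div_self (xx_ne_zero k F i)]; exact one_mem _
  · rw [← VV_one _ _ h]; exact VV_mem _ _ _ _

theorem xx_mem (i j : Fin p) : xx k F j ∈ CC k F i := by
  have := mul_mem (xx_div_mem k F i j) (xx_mem_self k F i)
  rwa [div_mul_cancel₀ _ (xx_ne_zero k F i)] at this

theorem zz_mem (i j : Fin p) : (yy k F j - xx k F j / xx k F i * yy k F i) ∈ CC k F i := by
  by_cases h : j = i
  · rw [h, div_self (xx_ne_zero k F i), one_mul, sub_self]; exact zero_mem _
  · rw [← VV_zero _ _ h]; exact VV_mem _ _ _ _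

variable [IsScalarTower k (CoordRing p k) F]

theorem genActF_aux : Function.Injective
    ((IsScalarTower.toAlgHom k (CoordRing p k) F).comp (genAct p k)) :=
  (algebraMap_FF_injective k F).comp genAct_injective

/-- The action of the generator on the function field of `V`. -/
def genActF (p : ℕ) (k : Type u) [Field k] (F : Type u) [Field F] [Algebra (CoordRing p k) F]
    [Algebra k F] [IsScalarTower k (CoordRing p k) F] [IsFractionRing (CoordRing p k) F] :
    F →ₐ[k] F :=
  IsFractionRing.liftAlgHom (A := CoordRing p k) (genActF_aux (p := p) k F)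

theorem genActF_algebraMap (f : CoordRing p k) :
    genActF p k F (algebraMap _ _ f) = algebraMap _ _ (genAct p k f) := by
  simp [genActF]

theorem genActF_xx (i : Fin p) : genActF p k F (xx k F i) = xx k F i := by
  rw [xx, genActF_algebraMap, genAct_X_one]

theorem genActF_yy (i : Fin p) : genActF p k F (yy k F i) = yy k F i + xx k F i := by
  rw [xx, yy, genActF_algebraMap, genAct_X_zero, map_add]

theorem exists_aeval (i : Fin p) (f : CoordRing p k) :
    ∃ g : Polynomial (CC k F i), Polynomial.aeval (yy k F i) g = algebraMap _ _ f := by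
  suffices h : algebraMap _ F f ∈ Algebra.adjoin (CC k F i) {yy k F i} by
    rw [Algebra.adjoin_singleton_eq_range_aeval] at h
    exact h
  have hy : yy k F i ∈ Algebra.adjoin (CC k F i) {yy k F i} :=
    Algebra.subset_adjoin rfl
  have hc : ∀ c ∈ CC k F i, c ∈ Algebra.adjoin (CC k F i) {yy k F i} := fun c hc =>
    Subalgebra.algebraMap_mem (Algebra.adjoin (CC k F i) {yy k F i}) ⟨c, hc⟩
  induction f using MvPolynomial.induction_on with
  | C a =>
    apply hc
    have : algebraMap (CoordRing p k) F (C a) = algebraMap k F a := by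
      rw [IsScalarTower.algebraMap_apply k (CoordRing p k) F]; rfl
    rw [this]
    exact Subalgebra.algebraMap_mem _ _
  | add f g hf hg => rw [map_add]; exact add_mem hf hg
  | mul_X f v hf =>
    rw [map_mul]
    refine mul_mem hf ?_
    obtain ⟨a, j⟩ := v
    fin_cases a
    · change yy k F j ∈ _
      have := add_mem (hc _ (zz_mem k F i j)) (mul_mem (hc _ (xx_div_mem k F i j)) hy)
      rwa [sub_add_cancel] at this
    · exact hc _ (xx_mem k F i j)

variable [hp : Fact p.Prime]

omit [IsFractionRing (CoordRing p k) F] [IsScalarTower k (CoordRing p k) F] in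
theorem yy_isIntegral (i : Fin p) : IsIntegral (CC k F i) (yy k F i) := by
  refine ⟨_, (monic_aux (p := p) (A := CC k F i)
    ⟨xx k F i ^ (p - 1), pow_mem (xx_mem_self k F i) _⟩ ⟨_, norm_mem k F i⟩).1, ?_⟩
  rw [← Polynomial.aeval_def, map_sub, map_add, map_mul, map_pow, Polynomial.aeval_X,
    Polynomial.aeval_C, Polynomial.aeval_C]
  change yy k F i ^ p - (xx k F i ^ (p - 1) * yy k F i +
    (yy k F i ^ p - xx k F i ^ (p - 1) * yy k F i)) = 0
  ring

theorem isIntegral_algebraMap_FF (i : Fin p) (f : CoordRing p k) :
    IsIntegral (CC k F i) (algebraMap _ F f) := by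
  obtain ⟨g, hg⟩ := exists_aeval k F i f
  rw [← hg]
  exact isIntegral_aeval (yy_isIntegral k F i) g

theorem isAlgebraic_FF (i : Fin p) : Algebra.IsAlgebraic (CC k F i) F :=
  isAlgebraic_div (isIntegral_algebraMap_FF k F i)

theorem VV_algebraicIndependent (i : Fin p) : AlgebraicIndependent k (VV k F i) := by
  have := isAlgebraic_FF k F i
  unfold CC at this
  refine (Algebra.IsAlgebraic.isTranscendenceBasis_of_lift_le_trdeg_of_finite k (VV k F i) ?_).1
  have h1 := lift_trdeg_le_of_injective (IsScalarTower.toAlgHom k (CoordRing p k) F)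
    (algebraMap_FF_injective k F)
  rw [MvPolynomial.trdeg_of_isDomain] at h1
  simpa using h1

section charp

variable [CharP k p]

omit [IsFractionRing (CoordRing p k) F] [IsScalarTower k (CoordRing p k) F] hp
  [Algebra (CoordRing p k) F] in
include k in
theorem charP_FF : CharP F p := charP_of_injective_algebraMap (algebraMap k F).injective p

theorem genActF_norm (i : Fin p) :
    genActF p k F (yy k F i ^ p - xx k F i ^ (p - 1) * yy k F i) =
    yy k F i ^ p - xx k F i ^ (p - 1) * yy k F i := by
  have := charP_FF (p := p) k F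
  have h1 : (xx k F i) ^ p = xx k F i ^ (p - 1) * xx k F i := by
    rw [← pow_succ, Nat.sub_add_cancel hp.out.one_le]
  simp only [map_sub, map_pow, map_mul, genActF_xx, genActF_yy, add_pow_char]
  rw [h1]; ring

theorem genActF_VV (i : Fin p) (v : Fin 2 × Fin p) :
    genActF p k F (VV k F i v) = VV k F i v := by
  obtain ⟨a, j⟩ := v
  fin_cases a
  · by_cases h : j = i
    · subst h
      simp only [Fin.zero_eta, VV_zero_self, genActF_norm]
    · simp only [Fin.zero_eta, VV_zero _ _ h, map_sub, map_mul, map_div₀, genActF_xx, genActF_yy]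
      have := xx_ne_zero k F i
      field_simp
      ring
  · by_cases h : j = i
    · subst h
      simp only [Fin.mk_one, VV_one_self, genActF_xx]
    · simp only [Fin.mk_one, VV_one _ _ h, map_div₀, genActF_xx]

theorem genActF_of_mem (i : Fin p) {c : F} (hc : c ∈ CC k F i) : genActF p k F c = c := by
  have h : CC k F i ≤ AlgHom.equalizer (genActF p k F) (AlgHom.id k _) := by
    apply Algebra.adjoin_le
    rintro _ ⟨v, rfl⟩
    simp [genActF_VV]
  simpa [AlgHom.mem_equalizer] using h hc

/-- The key lemma: invariant polynomials lie in the chart rings. -/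
theorem invariants_mem (i : Fin p) {f : CoordRing p k} (hf : f ∈ invariants p k) :
    algebraMap _ F f ∈ CC k F i := by
  have := charP_FF (p := p) k F
  obtain ⟨g, hg⟩ := exists_aeval k F i f
  have hτ : ∀ a : CC k F i, (genActF p k F : F →+* F)
      (algebraMap (CC k F i) F a) = algebraMap (CC k F i) F a :=
    fun a => genActF_of_mem k F i a.2
  have hfix : (genActF p k F : F →+* F) (algebraMap _ _ f) = algebraMap _ _ f := by
    change genActF p k F (algebraMap _ _ f) = _
    rw [genActF_algebraMap, mem_invariants.1 hf]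
  have := mem_range_of_fixed (genActF p k F : F →+* F) hτ (xx_ne_zero k F i)
    (genActF_yy k F i) (genActF_xx k F i)
    (a := ⟨xx k F i ^ (p - 1), pow_mem (xx_mem_self k F i) _⟩)
    (b := ⟨_, norm_mem k F i⟩) rfl rfl hfix hg
  obtain ⟨c, hc⟩ := this
  rw [← hc]
  exact c.2

end charp

end field

end

end Pool.Agent.Lib.MP_d95e25_ag
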