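import Pool.Agent.Lib.MP_d95e25_ag.Rees

/-!
# Homogeneous localizations of the Rees algebra inside a field
-/

open Polynomial HomogeneousLocalization

namespace Pool.Agent.Lib.MP_d95e25_ag

universe u

noncomputable section

variable {R : Type u} [CommRing R] {I : Ideal R} {F : Type u} [Field F] (φ : R →+* F)

/-- Evaluation of the Rees algebra at `W = 1`. -/
def evB : reesAlgebra I →+* F :=
  (Polynomial.eval₂RingHom φ 1).comp (reesAlgebra I).toSubring.subtype

theorem evB_reesMon (n : ℕ) (a : R) (ha : a ∈ I ^ n) : evB φ (reesMon n a ha) = φ a := by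
  change Polynomial.eval₂ φ 1 (monomial n a) = φ a
  rw [eval₂_monomial, one_pow, mul_one]

theorem evB_algebraMap (a : R) : evB (I := I) φ (algebraMap R _ a) = φ a := by
  change Polynomial.eval₂ φ 1 (C a) = φ a
  rw [eval₂_C]

variable {φ}

/-- Evaluation of the homogeneous localization. -/
def evAway {f : reesAlgebra I} (hf : evB φ f ≠ 0) : Away (reesGr I) f →+* F :=
  (IsLocalization.Away.lift (S := Localization.Away f) f (g := evB φ)
    (isUnit_iff_ne_zero.2 hf)).comp (algebraMap (Away (reesGr I) f) (Localization.Away f))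

theorem evAway_mk {f : reesAlgebra I} (hf : evB φ f ≠ 0) {d : ℕ} (hd : f ∈ reesGr I d) (n : ℕ)
    (b : reesAlgebra I) (hb : b ∈ reesGr I (n • d)) :
    evAway hf (Away.mk (reesGr I) hd n b hb) = evB φ b / evB φ f ^ n := by
  rw [evAway, RingHom.comp_apply, HomogeneousLocalization.algebraMap_apply, Away.val_mk,
    Localization.mk_eq_mk', IsLocalization.Away.lift, IsLocalization.lift_mk'_spec]
  have := pow_ne_zero n hf
  change evB φ b = evB φ (f ^ n) * _
  rw [map_pow]
  field_simp

theorem evAway_fromZero {f : reesAlgebra I} (hf : evB φ f ≠ 0) (r : R) :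
    evAway hf (fromZeroRingHom (reesGr I) (Submonoid.powers f) (algebraMap R _ r)) = φ r := by
  rw [evAway, RingHom.comp_apply, HomogeneousLocalization.algebraMap_apply]
  have : (fromZeroRingHom (reesGr I) (Submonoid.powers f) (algebraMap R _ r)).val =
      algebraMap (reesAlgebra I) (Localization.Away f) (algebraMap R _ r) := by
    rw [← Localization.mk_one_eq_algebraMap]
    rfl
  rw [this, IsLocalization.Away.lift_eq, evB_algebraMap]

theorem evAway_injective (hφ : Function.Injective φ) {f : reesAlgebra I} (hf : evB φ f ≠ 0)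
    {d : ℕ} (hd : f ∈ reesGr I d) : Function.Injective (evAway hf) := by
  rw [injective_iff_map_eq_zero]
  intro z hz
  obtain ⟨n, b, hb, rfl⟩ := Away.mk_surjective (reesGr I) hd z
  rw [evAway_mk, div_eq_zero_iff] at hz
  rcases hz with hz | hz
  · obtain ⟨a, ha, rfl⟩ := exists_reesMon hb
    rw [evB_reesMon] at hz
    have ha0 : a = 0 := hφ (by rw [hz, map_zero])
    subst ha0
    apply HomogeneousLocalization.val_injective
    rw [Away.val_mk, HomogeneousLocalization.val_zero]
    have : reesMon (n • d) (0 : R) ha = 0 := by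
      apply Subtype.ext
      change monomial (n • d) (0 : R) = 0
      rw [map_zero]
    rw [this, Localization.mk_zero]
  · exact absurd hz (pow_ne_zero n hf)

/-- Elements of the degree zero localization at `a W`. -/
theorem evAway_range_one {a : R} (ha : a ∈ I ^ 1) (ha0 : evB φ (reesMon 1 a ha) ≠ 0) (z : F) :
    (∃ w, evAway ha0 w = z) ↔ ∃ n, ∃ c ∈ I ^ n, z = φ c / φ a ^ n := by
  constructor
  · rintro ⟨w, rfl⟩
    obtain ⟨n, b, hb, rfl⟩ := Away.mk_surjective (reesGr I) (reesMon_mem 1 a ha) w
    obtain ⟨c, hc, rfl⟩ := exists_reesMon hb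
    refine ⟨n, c, by simpa using hc, ?_⟩
    rw [evAway_mk, evB_reesMon, evB_reesMon]
  · rintro ⟨n, c, hc, rfl⟩
    refine ⟨Away.mk (reesGr I) (reesMon_mem 1 a ha) n (reesMon (n • 1) c (by simpa using hc))
      (reesMon_mem _ _ _), ?_⟩
    rw [evAway_mk, evB_reesMon, evB_reesMon]

end

end Pool.Agent.Lib.MP_d95e25_ag
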