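import Pool.Agent.Lib.MP_d95e25_ag.SmoothY

/-!
# The blowup is an isomorphism over the complement of the centre
-/

open HomogeneousLocalization AlgebraicGeometry CategoryTheory TopologicalSpace

namespace Pool.Agent.Lib.MP_d95e25_ag

universe u

noncomputable section

theorem isIso_restrict_of {X Y Z : Scheme.{u}} (f : Y ⟶ X) (D : X.Opens) (j' : Z ⟶ Y)
    [IsOpenImmersion j'] (j : Z ⟶ X) [IsOpenImmersion j] (h : j' ≫ f = j)
    (h1 : j'.opensRange = f ⁻¹ᵁ D) (h2 : j.opensRange = D) : IsIso (f ∣_ D) := by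
  have e1 : Set.range j' = Set.range (f ⁻¹ᵁ D).ι := by
    rw [Scheme.Opens.range_ι, ← h1]; rfl
  have e2 : Set.range j = Set.range D.ι := by
    rw [Scheme.Opens.range_ι]
    conv_rhs => rw [← h2]
    rfl
  have h3 : f ∣_ D = (IsOpenImmersion.isoOfRangeEq j' (f ⁻¹ᵁ D).ι e1).inv ≫
      (IsOpenImmersion.isoOfRangeEq j D.ι e2).hom := by
    rw [← cancel_mono D.ι, morphismRestrict_ι, Category.assoc,
      IsOpenImmersion.isoOfRangeEq_hom_fac, ← h,
      ← Category.assoc, IsOpenImmersion.isoOfRangeEq_inv_fac]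
  rw [h3]
  infer_instance

theorem isIso_restrict_iSup {X Y : Scheme.{u}} (f : Y ⟶ X) {ι : Type*} (D : ι → X.Opens)
    (h : ∀ i, IsIso (f ∣_ D i)) : IsIso (f ∣_ ⨆ i, D i) := by
  have h1 : (MorphismProperty.isomorphisms Scheme) (f ∣_ ⨆ i, D i) := by
    rw [IsZariskiLocalAtTarget.iff_of_iSup_eq_top (P := MorphismProperty.isomorphisms Scheme)
      (U := fun i => (⨆ i, D i).ι ⁻¹ᵁ D i)]
    · intro i
      rw [(MorphismProperty.isomorphisms Scheme).arrow_mk_iso_iff
        (morphismRestrictRestrict f (⨆ i, D i) ((⨆ i, D i).ι ⁻¹ᵁ D i))]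
      have h2 : (⨆ i, D i).ι ''ᵁ ((⨆ i, D i).ι ⁻¹ᵁ D i) = D i := by
        rw [Scheme.Hom.image_preimage_eq_opensRange_inf, Scheme.Opens.opensRange_ι]
        exact inf_eq_right.2 (le_iSup D i)
      rw [(MorphismProperty.isomorphisms Scheme).arrow_mk_iso_iff (morphismRestrictEq f h2)]
      exact h i
    · apply (⨆ i, D i).ι.image_injective
      dsimp
      rw [Scheme.Hom.image_iSup, Scheme.Hom.image_top_eq_opensRange, Scheme.Opens.opensRange_ι]
      simp [Scheme.Hom.image_preimage_eq_opensRange_inf, le_iSup D]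
  exact h1

theorem isLocalization_of_embedding {R A K : Type*} [CommRing R] [CommRing A] [Algebra R A]
    [Field K] (ev : A →+* K) (hinj : Function.Injective ev) (a : R)
    (hφ : Function.Injective (algebraMap R A)) (ha0 : ev (algebraMap R A a) ≠ 0)
    (hinv : ∃ z : A, ev z = (ev (algebraMap R A a))⁻¹)
    (hfrac : ∀ z : A, ∃ c : R, ∃ n : ℕ, ev z = ev (algebraMap R A c) / ev (algebraMap R A a) ^ n) :
    IsLocalization.Away a A := by
  have hunit : IsUnit (algebraMap R A a) := by
    obtain ⟨z, hz⟩ := hinv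
    refine IsUnit.of_mul_eq_one z ?_
    apply hinj
    rw [map_mul, hz, map_one, mul_inv_cancel₀ ha0]
  unfold IsLocalization.Away
  rw [isLocalization_iff]
  refine ⟨?_, ?_, ?_⟩
  · rintro ⟨_, n, rfl⟩
    change IsUnit (algebraMap R _ (a ^ n))
    rw [map_pow]
    exact hunit.pow n
  · intro z
    obtain ⟨c, n, hc⟩ := hfrac z
    refine ⟨(c, ⟨a ^ n, ⟨n, rfl⟩⟩), ?_⟩
    apply hinj
    rw [map_mul, hc, map_pow, map_pow]
    field_simp
  · intro x y h
    refine ⟨1, ?_⟩
    rw [hφ h]

section general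

variable {R : Type u} [CommRing R] {I : Ideal R}

theorem reesC_mem (a : R) : (reesC a : reesAlgebra I) ∈ reesGr I 0 := reesMon_mem _ _ _

/-- The map `R → 𝓑_(f)`. -/
def alphaHom (f : reesAlgebra I) : R →+* Away (reesGr I) f :=
  (fromZeroRingHom (reesGr I) (Submonoid.powers f)).comp (zeroHom I).hom

theorem awayι_blow' {f : reesAlgebra I} {m : ℕ} (hf : f ∈ reesGr I m) (hm : 0 < m) :
    Proj.awayι (reesGr I) f hf hm ≫ blow I = Spec.map (CommRingCat.ofHom (alphaHom f)) := by
  rw [awayι_blow]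
  rfl

theorem alphaHom_val (f : reesAlgebra I) (r : R) :
    (alphaHom f r).val = algebraMap (reesAlgebra I) (Localization.Away f) (reesC r) := by
  rw [← Localization.mk_one_eq_algebraMap]
  rfl

/-- Preimages of basic opens. -/
theorem mem_preimage_basicOpen {g : R} {J : Type*} (f : J → reesAlgebra I)
    (hf : ∀ j, f j ∈ reesGr I 1) (hcov : ⨆ j, Proj.basicOpen (reesGr I) (f j) = ⊤)
    (y : blowY I) : blow I y ∈ PrimeSpectrum.basicOpen g ↔
      reesC g ∉ y.asHomogeneousIdeal := by
  obtain ⟨j, hj⟩ := Opens.mem_iSup.1 (hcov.ge (Set.mem_univ y) : y ∈ _)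
  have hj' : y ∈ (Proj.awayι (reesGr I) (f j) (hf j) one_pos).opensRange := by
    rw [Proj.opensRange_awayι]; exact hj
  obtain ⟨P, rfl⟩ := hj'
  have hg : f j * reesC g ∈ reesGr I 1 := by
    have := SetLike.mul_mem_graded (hf j) (reesC_mem (I := I) g)
    rwa [add_zero] at this
  have h1 := Proj.awayι_preimage_basicOpen (reesGr I) (hf j) one_pos hg one_pos
  have h2 : P ∈ Proj.awayι (reesGr I) (f j) (hf j) one_pos ⁻¹ᵁ
      Proj.basicOpen (reesGr I) (f j * reesC g) ↔
      reesC g ∉ (Proj.awayι (reesGr I) (f j) (hf j) one_pos P).asHomogeneousIdeal := by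
    constructor
    · intro h
      have h' : Proj.awayι (reesGr I) (f j) (hf j) one_pos P ∈
          Proj.basicOpen (reesGr I) (f j) ⊓ Proj.basicOpen (reesGr I) (reesC g) := by
        rw [← Proj.basicOpen_mul]; exact h
      exact h'.2
    · intro h
      change Proj.awayι (reesGr I) (f j) (hf j) one_pos P ∈
          Proj.basicOpen (reesGr I) (f j * reesC g)
      rw [Proj.basicOpen_mul]
      exact ⟨hj, h⟩
  rw [← h2, h1]
  have h3 : blow I (Proj.awayι (reesGr I) (f j) (hf j) one_pos P) =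
      Spec.map (CommRingCat.ofHom (alphaHom (f j))) P := by
    rw [← Scheme.Hom.comp_apply, awayι_blow']
  rw [h3]
  have h4 : Away.isLocalizationElem (hf j) hg = alphaHom (f j) g := by
    apply HomogeneousLocalization.val_injective
    rw [alphaHom_val, Away.val_mk, ← Localization.mk_one_eq_algebraMap, Localization.mk_eq_mk_iff,
      Localization.r_iff_exists]
    refine ⟨1, ?_⟩
    simp only [OneMemClass.coe_one, one_mul, pow_one]
  rw [h4]
  rfl

section localization

variable [IsDomain R]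

/-- The element `a W * a` of the Rees algebra. -/
def gElt (a : R) (ha : a ∈ I ^ 1) : reesAlgebra I := reesMon 1 a ha * reesC a

omit [IsDomain R] in
theorem gElt_mem (a : R) (ha : a ∈ I ^ 1) : gElt a ha ∈ reesGr I 1 := by
  have := SetLike.mul_mem_graded (reesMon_mem 1 a ha) (reesC_mem (I := I) a)
  rwa [add_zero] at this

theorem evB_gElt (a : R) (ha : a ∈ I ^ 1) :
    evB (algebraMap R (FractionRing R)) (gElt a ha) = algebraMap R (FractionRing R) a ^ 2 := by
  rw [gElt, map_mul, evB_reesMon, reesC, evB_reesMon, sq]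

theorem alphaHom_isLocalization {a : R} (ha : a ∈ I ^ 1) (ha0 : a ≠ 0) :
    @IsLocalization.Away R _ a (Away (reesGr I) (gElt a ha)) _ (alphaHom (gElt a ha)).toAlgebra := by
  have hφ : Function.Injective (algebraMap R (FractionRing R)) := IsFractionRing.injective _ _
  have ha' : algebraMap R (FractionRing R) a ≠ 0 := by
    rw [Ne, map_eq_zero_iff _ hφ]; exact ha0
  have hev : evB (algebraMap R (FractionRing R)) (gElt a ha) ≠ 0 := by
    rw [evB_gElt]; exact pow_ne_zero _ ha'
  have hinj := evAway_injective hφ hev (gElt_mem a ha)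
  have hal : ∀ r : R, evAway hev (alphaHom (gElt a ha) r) =
      algebraMap R (FractionRing R) r := fun r => evAway_fromZero hev r
  have hmk : ∀ n c, ∀ hc : c ∈ I ^ (n • 1), evAway hev
      (Away.mk (reesGr I) (gElt_mem a ha) n (reesMon (n • 1) c hc) (reesMon_mem _ _ _)) =
      algebraMap R (FractionRing R) c / (algebraMap R (FractionRing R) a ^ 2) ^ n := by
    intro n c hc
    rw [evAway_mk, evB_reesMon, evB_gElt]
  refine @isLocalization_of_embedding R (Away (reesGr I) (gElt a ha)) (FractionRing R) _ _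
    (alphaHom (gElt a ha)).toAlgebra _ (evAway hev) hinj a ?_ ?_ ?_ ?_
  · intro x y h
    apply hφ
    rw [← hal, ← hal]
    exact congrArg _ h
  · intro h
    exact ha' ((hal a).symm.trans h)
  · refine ⟨Away.mk (reesGr I) (gElt_mem a ha) 1 (reesMon (1 • 1) a ha) (reesMon_mem _ _ _), ?_⟩
    rw [hmk]
    refine Eq.trans ?_ (congrArg _ (hal a).symm)
    field_simp
  · intro z
    obtain ⟨n, b, hb, rfl⟩ := Away.mk_surjective (reesGr I) (gElt_mem a ha) z
    obtain ⟨c, hc, rfl⟩ := exists_reesMon hb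
    refine ⟨c, 2 * n, ?_⟩
    rw [hmk, ← pow_mul]
    exact (congrArg₂ (· / · ^ (2 * n)) (hal c) (hal a)).symm

/-- The basic open subset `D(a)` of `Spec R`. -/
def dOpen (a : R) : (Spec (CommRingCat.of R)).Opens := PrimeSpectrum.basicOpen a

omit [IsDomain R] in
theorem reesMon_notMem {a : R} (ha : a ∈ I ^ 1) (y : blowY I)
    (h : reesC a ∉ y.asHomogeneousIdeal) : reesMon 1 a ha ∉ y.asHomogeneousIdeal := by
  intro h1
  apply y.not_irrelevant_le
  refine irrelevant_le_of_forall y.asHomogeneousIdeal.toIdeal fun b hb => ?_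
  have h2 : reesC a * reesMon 1 b hb = reesC b * reesMon 1 a ha := by
    rw [reesC, reesC, reesMon_mul, reesMon_mul]
    exact reesMon_congr _ _ rfl (mul_comm _ _)
  have h3 : reesC a * reesMon 1 b hb ∈ y.asHomogeneousIdeal.toIdeal := by
    rw [h2]
    exact Ideal.mul_mem_left _ _ h1
  exact (y.isPrime.mem_or_mem h3).resolve_left h

theorem blow_isIso {a : R} (ha : a ∈ I ^ 1) (ha0 : a ≠ 0) {J : Type*} (f : J → reesAlgebra I)
    (hf : ∀ j, f j ∈ reesGr I 1) (hcov : ⨆ j, Proj.basicOpen (reesGr I) (f j) = ⊤) :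
    IsIso (blow I ∣_ dOpen a) := by
  have hloc := alphaHom_isLocalization ha ha0
  have hj : IsOpenImmersion (Spec.map (CommRingCat.ofHom (alphaHom (gElt a ha)))) := by
    let _ := (alphaHom (gElt a ha)).toAlgebra
    exact IsOpenImmersion.of_isLocalization (S := Away (reesGr I) (gElt a ha)) a
  refine isIso_restrict_of (blow I) (dOpen a)
    (Proj.awayι (reesGr I) (gElt a ha) (gElt_mem a ha) one_pos)
    (Spec.map (CommRingCat.ofHom (alphaHom (gElt a ha))))
    (awayι_blow' (gElt_mem a ha) one_pos) ?_ ?_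
  · rw [Proj.opensRange_awayι]
    ext y
    change y ∈ Proj.basicOpen (reesGr I) (gElt a ha) ↔ blow I y ∈ PrimeSpectrum.basicOpen a
    rw [mem_preimage_basicOpen f hf hcov]
    rw [gElt, Proj.basicOpen_mul]
    constructor
    · exact fun h => h.2
    · exact fun h => ⟨reesMon_notMem ha y h, h⟩
  · ext x
    change x ∈ Set.range (Spec.map (CommRingCat.ofHom (alphaHom (gElt a ha)))) ↔
      x ∈ (PrimeSpectrum.basicOpen a : Set (PrimeSpectrum R))
    let _ := (alphaHom (gElt a ha)).toAlgebra
    have := PrimeSpectrum.localization_away_comap_range (Away (reesGr I) (gElt a ha)) a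
    rw [← this]
    exact Iff.rfl

end localization

end general

section special

variable (p : ℕ) (k : Type u) [Field k] [hp : Fact p.Prime] [CharP k p]

omit hp [CharP k p] in
theorem xR_ne_zero (i : Fin p) : xR p k i ≠ 0 := by
  intro h
  have : (MvPolynomial.X (1, i) : CoordRing p k) = 0 := congrArg Subtype.val h
  exact MvPolynomial.X_ne_zero _ this

/-- The smooth locus of `X` used in the proof. -/
def smU : (quotientX p k).Opens := ⨆ i, dOpen (xR p k i)

theorem resF_isIso : IsIso (resF p k ∣_ smU p k) :=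
  isIso_restrict_iSup _ _ fun i =>
    blow_isIso (by rw [pow_one]; exact xR_mem p k i) (xR_ne_zero p k i) (xi p k) (xi_mem p k)
      (iSup_basicOpen p k)

end special

end

end Pool.Agent.Lib.MP_d95e25_ag
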