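import Pool.Agent.Lib.MP_d95e25_ag.CoverProj

/-!
# The blowup as a scheme
-/

open HomogeneousLocalization AlgebraicGeometry CategoryTheory

namespace Pool.Agent.Lib.MP_d95e25_ag

universe u

noncomputable section

theorem proper_general {A : Type u} [CommRing A] {σ : Type*} [SetLike σ A]
    [AddSubgroupClass σ A] (𝒜 : ℕ → σ) [GradedRing 𝒜] (h : Algebra.FiniteType (𝒜 0) A) :
    IsProper (Proj.toSpecZero 𝒜) := inferInstance

section general

variable {R : Type u} [CommRing R] (I : Ideal R)

/-- The blowup of `Spec R` in `I`. -/
abbrev blowY : Scheme.{u} := Proj (reesGr I)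

/-- The map from `R` to the degree zero part of the Rees algebra. -/
def zeroHom : CommRingCat.of R ⟶ CommRingCat.of (reesGr I 0) :=
  CommRingCat.ofHom (algebraMap R (reesGr I 0))

theorem zeroHom_surjective : Function.Surjective (zeroHom I).hom := reesZero_surjective

/-- The blowup morphism. -/
def blow : blowY I ⟶ Spec (CommRingCat.of R) :=
  Proj.toSpecZero (reesGr I) ≫ Spec.map (zeroHom I)

theorem blow_isProper (hI : I.FG) : IsProper (blow I) := by
  have h1 : IsProper (Proj.toSpecZero (reesGr I)) :=
    proper_general (reesGr I) (reesFiniteType hI)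
  have h2 : IsClosedImmersion (Spec.map (zeroHom I)) :=
    IsClosedImmersion.spec_of_surjective _ (zeroHom_surjective I)
  unfold blow
  infer_instance

theorem awayι_blow {f : reesAlgebra I} {m : ℕ} (hf : f ∈ reesGr I m) (hm : 0 < m) :
    Proj.awayι (reesGr I) f hf hm ≫ blow I =
      Spec.map (zeroHom I ≫ CommRingCat.ofHom (fromZeroRingHom (reesGr I) (Submonoid.powers f))) := by
  unfold blow
  rw [Proj.awayι_toSpecZero_assoc, ← Spec.map_comp]

variable [IsDomain R]

theorem isReduced_blowY : IsReduced (blowY I) := by
  have : ∀ x : blowY I, _root_.IsReduced ((blowY I).presheaf.stalk x) := by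
    intro x
    have e := (Proj.stalkIso (reesGr I) x).commRingCatIsoToRingEquiv
    have hx : x.asHomogeneousIdeal.toIdeal.IsPrime := x.isPrime
    have : IsDomain (Localization.AtPrime x.asHomogeneousIdeal.toIdeal) :=
      IsLocalization.isDomain_localization (Ideal.primeCompl_le_nonZeroDivisors _)
    exact isReduced_of_injective ((algebraMap (HomogeneousLocalization.AtPrime (reesGr I)
      x.asHomogeneousIdeal.toIdeal) (Localization.AtPrime x.asHomogeneousIdeal.toIdeal)).comp
      e.toRingHom) ((HomogeneousLocalization.val_injective _).comp e.injective)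
  exact isReduced_of_isReduced_stalk _

theorem irreducible_blowY (hI : I ≠ ⊥) : IrreducibleSpace (blowY I) := by
  obtain ⟨a, ha, ha0⟩ := Submodule.exists_mem_ne_zero_of_ne_bot hI
  let y : ProjectiveSpectrum (reesGr I) :=
    { asHomogeneousIdeal := ⊥
      isPrime := Ideal.isPrime_bot
      not_irrelevant_le := by
        intro h
        have h1 : reesMon 1 a (by rwa [pow_one]) ∈ HomogeneousIdeal.irrelevant (reesGr I) := by
          rw [HomogeneousIdeal.mem_irrelevant_iff, GradedRing.proj_apply,
            DirectSum.decompose_of_mem_ne (reesGr I) (reesMon_mem 1 a _) one_ne_zero]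
        have h2 : reesMon 1 a (by rwa [pow_one]) ∈ (⊥ : HomogeneousIdeal (reesGr I)) := h h1
        have h3 : reesMon 1 a (by rwa [pow_one]) = (0 : reesAlgebra I) := h2
        have h4 : Polynomial.monomial 1 a = (0 : Polynomial R) := congrArg Subtype.val h3
        exact ha0 ((Polynomial.monomial_eq_zero_iff _ _).1 h4) }
  have h1 : closure ({y} : Set (ProjectiveSpectrum (reesGr I))) = Set.univ := by
    rw [Set.eq_univ_iff_forall]
    intro z
    rw [← ProjectiveSpectrum.le_iff_mem_closure]
    exact bot_le (a := z.asHomogeneousIdeal)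
  have h2 : IsIrreducible (Set.univ : Set (ProjectiveSpectrum (reesGr I))) := by
    rw [← h1]
    exact isIrreducible_singleton.closure
  exact { isPreirreducible_univ := h2.2, toNonempty := ⟨y⟩ }

theorem isIntegral_blowY (hI : I ≠ ⊥) : IsIntegral (blowY I) := by
  have := isReduced_blowY I
  have := irreducible_blowY I hI
  exact isIntegral_of_irreducibleSpace_of_isReduced _

end general

end

end Pool.Agent.Lib.MP_d95e25_ag
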