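import Pool.Agent.Lib.MP_d95e25_ag.Alg
import Pool.Agent.Lib.MP_d95e25_ag.AwayEv

/-!
# The charts of the blowup
-/

open MvPolynomial HomogeneousLocalization

namespace Pool.Agent.Lib.MP_d95e25_ag

universe u

noncomputable section

theorem stdSmooth_of_bijective {k A : Type*} [CommRing k] [CommRing A] [Algebra k A] {ι : Type}
    [Finite ι] (v : ι → A) (hv : Function.Bijective (aeval (R := k) v)) :
    Algebra.IsStandardSmoothOfRelativeDimension (Nat.card ι) k A := by
  classical
  let P : Algebra.PreSubmersivePresentation k A ι PEmpty.{1} :=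
  { toGenerators := .ofSurjective v hv.2
    relation := PEmpty.elim
    span_range_relation_eq_ker := by
      rw [Set.range_eq_empty, Ideal.span_empty]
      symm
      rw [eq_bot_iff]
      intro x hx
      have hx' : aeval (R := k) v x = 0 := hx
      have : x = 0 := hv.1 (by rw [hx', map_zero])
      rw [this]
      exact Ideal.zero_mem _
    map := PEmpty.elim
    map_inj := fun x => x.elim }
  let P' : Algebra.SubmersivePresentation k A ι PEmpty.{1} :=
  { __ := P
    jacobian_isUnit := by
      rw [Algebra.PreSubmersivePresentation.jacobian_eq_jacobiMatrix_det]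
      simp }
  refine ⟨ι, PEmpty, inferInstance, inferInstance, P', ?_⟩
  simp [Algebra.Presentation.dimension]

variable (p : ℕ) (k : Type u) [Field k]

/-- `x_i` as an invariant. -/
def xR (i : Fin p) : invariants p k := ⟨X (1, i), X_one_mem i⟩

/-- `u_ij = x_i y_j - x_j y_i` as an invariant. -/
def uR (v : Fin p × Fin p) : invariants p k :=
  ⟨X (1, v.1) * X (0, v.2) - X (1, v.2) * X (0, v.1), by
    rw [mem_invariants]
    simp only [map_sub, map_mul, genAct_X_zero, genAct_X_one]
    ring⟩

/-- The centre of the blowup. -/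
def II : Ideal (invariants p k) := Ideal.span (Set.range (xR p k) ∪ Set.range (uR p k))

theorem II_fg : (II p k).FG :=
  Submodule.fg_span ((Set.finite_range _).union (Set.finite_range _))

theorem xR_mem (i : Fin p) : xR p k i ∈ II p k := Ideal.subset_span (Or.inl ⟨i, rfl⟩)

theorem uR_mem (v : Fin p × Fin p) : uR p k v ∈ II p k := Ideal.subset_span (Or.inr ⟨v, rfl⟩)

/-- The generator `x_i W` of the Rees algebra. -/
def xi (i : Fin p) : reesAlgebra (II p k) :=
  reesMon 1 (xR p k i) (by rw [pow_one]; exact xR_mem p k i)

theorem xi_mem (i : Fin p) : xi p k i ∈ reesGr (II p k) 1 := reesMon_mem _ _ _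

variable (F : Type u) [Field F] [Algebra (CoordRing p k) F]

/-- The embedding of the invariants into the function field of `V`. -/
def phiR : invariants p k →+* F := (algebraMap (CoordRing p k) F).comp (invariants p k).val.toRingHom

theorem phiR_xR (i : Fin p) : phiR p k F (xR p k i) = xx k F i := rfl

theorem phiR_uR (v : Fin p × Fin p) : phiR p k F (uR p k v) =
    xx k F v.1 * yy k F v.2 - xx k F v.2 * yy k F v.1 := by
  change algebraMap (CoordRing p k) F (X (1, v.1) * X (0, v.2) - X (1, v.2) * X (0, v.1)) = _
  rw [map_sub, map_mul, map_mul]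
  rfl

theorem evB_xi (i : Fin p) : evB (phiR p k F) (xi p k i) = xx k F i := by
  rw [xi, evB_reesMon, phiR_xR]

variable [IsFractionRing (CoordRing p k) F]

theorem evB_xi_ne (i : Fin p) : evB (phiR p k F) (xi p k i) ≠ 0 := by
  rw [evB_xi]; exact xx_ne_zero k F i

theorem phiR_injective : Function.Injective (phiR p k F) :=
  (algebraMap_FF_injective k F).comp Subtype.val_injective

variable [Algebra k F] [IsScalarTower k (CoordRing p k) F] [hp : Fact p.Prime] [CharP k p]

/-- The norm of `y_i` as an invariant. -/
def nR (i : Fin p) : invariants p k :=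
  ⟨X (0, i) ^ p - X (1, i) ^ (p - 1) * X (0, i), by
    rw [mem_invariants]
    have : CharP (CoordRing p k) p := inferInstance
    have h1 : (X (1, i) : CoordRing p k) ^ p = X (1, i) ^ (p - 1) * X (1, i) := by
      rw [← pow_succ, Nat.sub_add_cancel hp.out.one_le]
    simp only [map_sub, map_mul, map_pow, genAct_X_zero, genAct_X_one, add_pow_char]
    rw [h1]
    ring⟩

omit [IsFractionRing (CoordRing p k) F] [Algebra k F] [IsScalarTower k (CoordRing p k) F] in
theorem phiR_nR (i : Fin p) : phiR p k F (nR p k i) =
    yy k F i ^ p - xx k F i ^ (p - 1) * yy k F i := by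
  change algebraMap (CoordRing p k) F (X (0, i) ^ p - X (1, i) ^ (p - 1) * X (0, i)) = _
  rw [map_sub, map_mul, map_pow, map_pow]
  rfl

theorem phiR_mem (i : Fin p) (r : invariants p k) : phiR p k F r ∈ CC k F i :=
  invariants_mem k F i r.2

theorem phiR_div_mem (i : Fin p) {c : invariants p k} (hc : c ∈ II p k) :
    phiR p k F c / xx k F i ∈ CC k F i := by
  have hx := xx_ne_zero k F i
  unfold II at hc
  induction hc using Submodule.span_induction with
  | mem x h =>
    rcases h with ⟨j, rfl⟩ | ⟨⟨a, b⟩, rfl⟩
    · rw [phiR_xR]; exact xx_div_mem k F i j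
    · rw [phiR_uR]
      have h1 : (xx k F a * yy k F b - xx k F b * yy k F a) / xx k F i =
          xx k F a / xx k F i * (yy k F b - xx k F b / xx k F i * yy k F i) -
          xx k F b / xx k F i * (yy k F a - xx k F a / xx k F i * yy k F i) := by
        field_simp
        ring
      rw [h1]
      exact sub_mem (mul_mem (xx_div_mem k F i a) (zz_mem k F i b))
        (mul_mem (xx_div_mem k F i b) (zz_mem k F i a))
  | zero => rw [map_zero, zero_div]; exact zero_mem _
  | add x y _ _ hx hy => rw [map_add, add_div]; exact add_mem hx hy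
  | smul a x _ hx =>
    rw [smul_eq_mul, map_mul, mul_div_assoc]
    exact mul_mem (phiR_mem p k F i a) hx

theorem phiR_div_pow_mem (i : Fin p) (n : ℕ) {c : invariants p k} (hc : c ∈ II p k ^ n) :
    phiR p k F c / xx k F i ^ n ∈ CC k F i := by
  have hx := xx_ne_zero k F i
  induction n generalizing c with
  | zero => rw [pow_zero, div_one]; exact phiR_mem p k F i c
  | succ n ih =>
    rw [pow_succ] at hc
    induction hc using Submodule.mul_induction_on' with
    | mem_mul_mem a ha b hb =>
      have := mul_mem (ih ha) (phiR_div_mem p k F i hb)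
      rw [map_mul, pow_succ]
      convert this using 1
      field_simp
    | add x _ y _ hx hy => rw [map_add, add_div]; exact add_mem hx hy

theorem chart_range (i : Fin p) (z : F) :
    (∃ w, evAway (evB_xi_ne p k F i) w = z) ↔ z ∈ CC k F i := by
  constructor
  · intro h
    obtain ⟨n, c, hc, rfl⟩ := (evAway_range_one _ (evB_xi_ne p k F i) z).1 h
    rw [phiR_xR]
    exact phiR_div_pow_mem p k F i n hc
  · intro hz
    have hmk : ∀ n, ∀ c ∈ II p k ^ n, ∃ w, evAway (evB_xi_ne p k F i) w =
        phiR p k F c / xx k F i ^ n := fun n c hc =>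
      (evAway_range_one _ (evB_xi_ne p k F i) _).2 ⟨n, c, hc, rfl⟩
    unfold CC at hz
    induction hz using Algebra.adjoin_induction with
    | mem x hx =>
      obtain ⟨⟨a, j⟩, rfl⟩ := hx
      fin_cases a
      · by_cases h : j = i
        · subst h
          obtain ⟨w, hw⟩ := hmk 0 (nR p k j) (by rw [pow_zero, Ideal.one_eq_top]; trivial)
          refine ⟨w, ?_⟩
          rw [hw, pow_zero, div_one, phiR_nR]
          exact (VV_zero_self k F j).symm
        · obtain ⟨w, hw⟩ := hmk 1 (uR p k (i, j)) (by rw [pow_one]; exact uR_mem p k _)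
          refine ⟨w, ?_⟩
          rw [hw, pow_one, phiR_uR]
          refine Eq.trans ?_ (VV_zero k F h).symm
          have := xx_ne_zero k F i
          field_simp
      · by_cases h : j = i
        · subst h
          obtain ⟨w, hw⟩ := hmk 0 (xR p k j) (by rw [pow_zero, Ideal.one_eq_top]; trivial)
          refine ⟨w, ?_⟩
          rw [hw, pow_zero, div_one, phiR_xR]
          exact (VV_one_self k F j).symm
        · obtain ⟨w, hw⟩ := hmk 1 (xR p k j) (by rw [pow_one]; exact xR_mem p k _)
          refine ⟨w, ?_⟩
          rw [hw, pow_one, phiR_xR]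
          exact (VV_one k F h).symm
    | algebraMap r =>
      obtain ⟨w, hw⟩ := hmk 0 (algebraMap k _ r) (by rw [pow_zero, Ideal.one_eq_top]; trivial)
      refine ⟨w, ?_⟩
      rw [hw, pow_zero, div_one, IsScalarTower.algebraMap_apply k (CoordRing p k) F]
      rfl
    | add x y hx hy hx' hy' =>
      obtain ⟨w, hw⟩ := hx'
      obtain ⟨w', hw'⟩ := hy'
      exact ⟨w + w', by rw [map_add, hw, hw']⟩
    | mul x y hx hy hx' hy' =>
      obtain ⟨w, hw⟩ := hx'
      obtain ⟨w', hw'⟩ := hy'
      exact ⟨w * w', by rw [map_mul, hw, hw']⟩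

/-- The structure map `k → 𝓑_(x_i W)`. -/
def strAway {p : ℕ} {k : Type u} [Field k] (f : reesAlgebra (II p k)) :
    k →+* Away (reesGr (II p k)) f :=
  (fromZeroRingHom (reesGr (II p k)) (Submonoid.powers f)).comp
    ((algebraMap (invariants p k) (reesGr (II p k) 0)).comp (algebraMap k (invariants p k)))

omit [IsFractionRing (CoordRing p k) F] hp [CharP k p] in
theorem evAway_strAway {f : reesAlgebra (II p k)} (hf : evB (phiR p k F) f ≠ 0) (a : k) :
    evAway hf (strAway f a) = algebraMap k F a := by
  rw [strAway, RingHom.comp_apply, RingHom.comp_apply, evAway_fromZero,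
    IsScalarTower.algebraMap_apply k (CoordRing p k) F]
  rfl

include F in
theorem strAway_smooth (i : Fin p) :
    (strAway (xi p k i)).IsStandardSmoothOfRelativeDimension (2 * p) := by
  let _ : Algebra k (Away (reesGr (II p k)) (xi p k i)) := (strAway (xi p k i)).toAlgebra
  have hex : ∀ v, ∃ w, evAway (evB_xi_ne p k F i) w = VV k F i v := fun v =>
    (chart_range p k F i _).2 (VV_mem k F i v)
  choose v hv using hex
  have hinj := evAway_injective (phiR_injective p k F) (evB_xi_ne p k F i) (xi_mem p k i)
  let ev : Away (reesGr (II p k)) (xi p k i) →ₐ[k] F :=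
    { evAway (evB_xi_ne p k F i) with
      commutes' := fun a => evAway_strAway p k F (evB_xi_ne p k F i) a }
  have hcomp : ev.comp (aeval (R := k) v) = aeval (R := k) (VV k F i) := by
    apply MvPolynomial.algHom_ext
    intro b
    rw [AlgHom.comp_apply, aeval_X, aeval_X]
    exact hv b
  have hb : Function.Bijective (aeval (R := k) v) := by
    constructor
    · have h1 : Function.Injective (aeval (R := k) (VV k F i)) := VV_algebraicIndependent k F i
      rw [← hcomp] at h1
      exact Function.Injective.of_comp (f := ev) h1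
    · intro w
      have h2 : ev w ∈ CC k F i := (chart_range p k F i _).1 ⟨w, rfl⟩
      rw [CC, Algebra.adjoin_range_eq_range_aeval] at h2
      obtain ⟨q, hq⟩ := h2
      refine ⟨q, hinj ?_⟩
      rw [← hcomp] at hq
      exact hq
  have := stdSmooth_of_bijective v hb
  rw [Nat.card_prod, Nat.card_fin, Nat.card_fin] at this
  exact this

end

end Pool.Agent.Lib.MP_d95e25_ag
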