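import Pool.Agent.Lib.MP_d95e25_ag.Chart

/-!
# The affine cover of the blowup
-/

open HomogeneousLocalization AlgebraicGeometry

namespace Pool.Agent.Lib.MP_d95e25_ag

universe u

noncomputable section

section general

variable {R : Type u} [CommRing R] {I : Ideal R}

theorem reesMon_mul {m n : ℕ} {a b : R} (ha : a ∈ I ^ m) (hb : b ∈ I ^ n) :
    reesMon m a ha * reesMon n b hb =
      reesMon (m + n) (a * b) (by rw [pow_add]; exact Ideal.mul_mem_mul ha hb) := by
  apply Subtype.ext
  exact Polynomial.monomial_mul_monomial _ _ _ _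

theorem reesMon_add {n : ℕ} {a b : R} (ha : a ∈ I ^ n) (hb : b ∈ I ^ n) :
    reesMon n a ha + reesMon n b hb = reesMon n (a + b) (add_mem ha hb) := by
  apply Subtype.ext
  exact (map_add (Polynomial.monomial n) _ _).symm

theorem reesMon_sub {n : ℕ} {a b : R} (ha : a ∈ I ^ n) (hb : b ∈ I ^ n) :
    reesMon n a ha - reesMon n b hb = reesMon n (a - b) (sub_mem ha hb) := by
  apply Subtype.ext
  exact (map_sub (Polynomial.monomial n) _ _).symm

theorem reesMon_pow {n : ℕ} {a : R} (ha : a ∈ I ^ n) (m : ℕ) :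
    reesMon n a ha ^ m = reesMon (n * m) (a ^ m) (by rw [pow_mul]; exact Ideal.pow_mem_pow ha m) := by
  apply Subtype.ext
  change (Polynomial.monomial n a) ^ m = Polynomial.monomial (n * m) (a ^ m)
  rw [Polynomial.monomial_pow]

/-- The constant `a` in the Rees algebra. -/
def reesC (a : R) : reesAlgebra I := reesMon 0 a (by rw [pow_zero, Ideal.one_eq_top]; trivial)

theorem reesMon_congr {m n : ℕ} {a b : R} (ha : a ∈ I ^ m) (hb : b ∈ I ^ n) (h : m = n)
    (h' : a = b) : reesMon m a ha = reesMon n b hb := by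
  subst h; subst h'; rfl

theorem reesMon_pow_eq {xi xj ni nj u : R} {p : ℕ} (hp : 1 ≤ p) (hxi : xi ∈ I ^ 1)
    (hxj : xj ∈ I ^ 1) (hu : u ∈ I ^ 1)
    (h : u ^ p = xi ^ p * nj - xj ^ p * ni + xi ^ (p - 1) * xj ^ (p - 1) * u) :
    reesMon 1 u hu ^ p = reesMon 1 xi hxi ^ p * reesC nj - reesMon 1 xj hxj ^ p * reesC ni +
      reesMon 1 xi hxi ^ (p - 1) * (reesC (xj ^ (p - 1)) * reesMon 1 u hu) := by
  apply Subtype.ext
  change (Polynomial.monomial 1 u) ^ p =
    (Polynomial.monomial 1 xi) ^ p * Polynomial.monomial 0 nj -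
    (Polynomial.monomial 1 xj) ^ p * Polynomial.monomial 0 ni +
    (Polynomial.monomial 1 xi) ^ (p - 1) * (Polynomial.monomial 0 (xj ^ (p - 1)) *
      Polynomial.monomial 1 u)
  simp only [Polynomial.monomial_pow,
    Polynomial.monomial_mul_monomial, one_mul, add_zero, zero_add]
  rw [Nat.sub_add_cancel hp, ← map_sub, ← map_add, h]
  congr 1
  ring

theorem reesMon_mem_of_forall (J : Ideal (reesAlgebra I))
    (h : ∀ a, ∀ ha : a ∈ I ^ 1, reesMon 1 a ha ∈ J) (n : ℕ) (a : R) (ha : a ∈ I ^ (n + 1)) :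
    reesMon (n + 1) a ha ∈ J := by
  have key : ∀ n a, a ∈ I ^ (n + 1) → ∀ ha : a ∈ I ^ (n + 1), reesMon (n + 1) a ha ∈ J := by
    intro n
    induction n with
    | zero =>
      intro a _ ha
      have := h a (by simpa using ha)
      exact this
    | succ n ih =>
      intro a ha'
      rw [pow_succ] at ha'
      induction ha' using Submodule.mul_induction_on' with
      | mem_mul_mem a ha b hb =>
        intro hab
        have h1 := reesMon_mul ha (n := 1) (b := b) (by rwa [pow_one])
        have h2 : reesMon (n + 1 + 1) (a * b) hab = reesMon (n + 1) a ha *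
          reesMon 1 b (by rwa [pow_one]) := h1.symm
        rw [h2]
        exact J.mul_mem_left _ (h b (by rwa [pow_one]))
      | add x hx y hy hx' hy' =>
        intro hxy
        rw [← pow_succ] at hx hy
        rw [← reesMon_add hx hy]
        exact add_mem (hx' hx) (hy' hy)
  exact key n a ha ha

theorem irrelevant_le_of_forall (J : Ideal (reesAlgebra I))
    (h : ∀ a, ∀ ha : a ∈ I ^ 1, reesMon 1 a ha ∈ J) :
    (HomogeneousIdeal.irrelevant (reesGr I)).toIdeal ≤ J := by
  classical
  intro b hb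
  have hb0 := (HomogeneousIdeal.mem_irrelevant_iff _ _).mp hb
  rw [← DirectSum.sum_support_decompose (reesGr I) b]
  refine J.sum_mem fun n hn => ?_
  rcases n with _ | n
  · have : ((DirectSum.decompose (reesGr I) b 0 : reesGr I 0) : reesAlgebra I) = 0 := hb0
    rw [this]
    exact J.zero_mem
  · obtain ⟨a, ha, hab⟩ := exists_reesMon (DirectSum.decompose (reesGr I) b (n + 1)).2
    rw [hab]
    exact reesMon_mem_of_forall J h n a ha

end general

variable (p : ℕ) (k : Type u) [Field k] [hp : Fact p.Prime] [CharP k p]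

theorem uR_pow (i j : Fin p) : uR p k (i, j) ^ p = xR p k i ^ p * nR p k j -
    xR p k j ^ p * nR p k i + xR p k i ^ (p - 1) * xR p k j ^ (p - 1) * uR p k (i, j) := by
  apply Subtype.ext
  change (MvPolynomial.X (1, i) * MvPolynomial.X (0, j) -
    MvPolynomial.X (1, j) * MvPolynomial.X (0, i) : CoordRing p k) ^ p =
    MvPolynomial.X (1, i) ^ p * (MvPolynomial.X (0, j) ^ p -
      MvPolynomial.X (1, j) ^ (p - 1) * MvPolynomial.X (0, j)) -
    MvPolynomial.X (1, j) ^ p * (MvPolynomial.X (0, i) ^ p -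
      MvPolynomial.X (1, i) ^ (p - 1) * MvPolynomial.X (0, i)) +
    MvPolynomial.X (1, i) ^ (p - 1) * MvPolynomial.X (1, j) ^ (p - 1) *
    (MvPolynomial.X (1, i) * MvPolynomial.X (0, j) -
      MvPolynomial.X (1, j) * MvPolynomial.X (0, i))
  have h1 : ∀ i, (MvPolynomial.X (1, i) : CoordRing p k) ^ p =
      MvPolynomial.X (1, i) ^ (p - 1) * MvPolynomial.X (1, i) := fun i => by
    rw [← pow_succ, Nat.sub_add_cancel hp.out.one_le]
  rw [sub_pow_char, mul_pow, mul_pow, h1 i, h1 j]
  ring

theorem uW_mem_of_forall (J : Ideal (reesAlgebra (II p k))) (hJ : J.IsPrime)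
    (h : ∀ i, xi p k i ∈ J) (v : Fin p × Fin p) (hv : uR p k v ∈ II p k ^ 1) :
    reesMon 1 (uR p k v) hv ∈ J := by
  obtain ⟨i, j⟩ := v
  apply hJ.mem_of_pow_mem p
  have hp0 : p ≠ 0 := hp.out.ne_zero
  have hp1 : p - 1 ≠ 0 := Nat.sub_ne_zero_of_lt hp.out.one_lt
  have h1 : reesMon 1 (uR p k (i, j)) hv ^ p =
      xi p k i ^ p * reesC (nR p k j) - xi p k j ^ p * reesC (nR p k i) +
      xi p k i ^ (p - 1) * (reesC (xR p k j ^ (p - 1)) *
        reesMon 1 (uR p k (i, j)) hv) := by
    exact reesMon_pow_eq hp.out.one_le _ _ _ (uR_pow p k i j)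
  rw [h1]
  refine add_mem (sub_mem ?_ ?_) ?_
  · exact J.mul_mem_right _ (J.pow_mem_of_mem (h i) p hp.out.pos)
  · exact J.mul_mem_right _ (J.pow_mem_of_mem (h j) p hp.out.pos)
  · exact J.mul_mem_right _ (J.pow_mem_of_mem (h i) (p - 1) (Nat.pos_of_ne_zero hp1))

theorem W_mem_of_forall (J : Ideal (reesAlgebra (II p k))) (hJ : J.IsPrime)
    (h : ∀ i, xi p k i ∈ J) (a : invariants p k) (ha : a ∈ II p k ^ 1) :
    reesMon 1 a ha ∈ J := by
  have key : ∀ a ∈ II p k, ∀ ha : a ∈ II p k ^ 1, reesMon 1 a ha ∈ J := by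
    intro a ha'
    unfold II at ha'
    induction ha' using Submodule.span_induction with
    | mem x hx =>
      intro ha
      rcases hx with ⟨i, rfl⟩ | ⟨v, rfl⟩
      · exact h i
      · exact uW_mem_of_forall p k J hJ h v ha
    | zero =>
      intro ha
      have : reesMon 1 (0 : invariants p k) ha = 0 := by
        apply Subtype.ext
        exact map_zero (Polynomial.monomial 1)
      rw [this]
      exact J.zero_mem
    | add x y hx hy hx' hy' =>
      intro ha
      have hx1 : x ∈ II p k ^ 1 := by rw [pow_one]; exact hx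
      have hy1 : y ∈ II p k ^ 1 := by rw [pow_one]; exact hy
      rw [← reesMon_add hx1 hy1]
      exact add_mem (hx' hx1) (hy' hy1)
    | smul a x hx hx' =>
      intro ha
      have hx1 : x ∈ II p k ^ 1 := by rw [pow_one]; exact hx
      have : reesMon 1 (a • x) ha = reesC a * reesMon 1 x hx1 := by
        apply Subtype.ext
        change Polynomial.monomial 1 (a * x) =
          Polynomial.monomial 0 a * Polynomial.monomial 1 x
        rw [Polynomial.monomial_mul_monomial, zero_add]
      rw [this]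
      exact J.mul_mem_left _ (hx' hx1)
  exact key a (by rwa [pow_one] at ha) ha

/-- The charts `D_+(x_i W)` cover the blowup. -/
theorem iSup_basicOpen : ⨆ i, Proj.basicOpen (reesGr (II p k)) (xi p k i) = ⊤ := by
  refine top_le_iff.mp fun y _ => TopologicalSpace.Opens.mem_iSup.mpr ?_
  by_contra! H
  have H' : ∀ i, xi p k i ∈ y.asHomogeneousIdeal.toIdeal := fun i => not_not.1 (H i)
  apply y.not_irrelevant_le
  exact irrelevant_le_of_forall _ (W_mem_of_forall p k _ y.isPrime H')

end

end Pool.Agent.Lib.MP_d95e25_ag
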