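import Pool.Agent.Lib.MP_d95e25_ag.Jac
import Pool.Agent.Lib.MP_d95e25_ag.Chart

/-!
# Crepancy: the algebraic part
-/

open KaehlerDifferential MvPolynomial

namespace Pool.Agent.Lib.MP_d95e25_ag

universe u

noncomputable section

variable {p : ℕ} (k F : Type u) [Field k] [Field F] [Algebra (CoordRing p k) F]
  [IsFractionRing (CoordRing p k) F] [Algebra k F] [IsScalarTower k (CoordRing p k) F]
  [hp : Fact p.Prime] [CharP k p]
  (K : Type u) [Field K] [Algebra k K] [Algebra K F] [IsScalarTower k K F]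

omit [IsFractionRing (CoordRing p k) F] [IsScalarTower k (CoordRing p k) F] hp [CharP k p] in
theorem exists_coords (hrange : ∀ (i : Fin p) (z : F), z ∈ CC k F i → ∃ a : K, algebraMap K F a = z)
    (i : Fin p) : ∃ v : Fin 2 × Fin p → K, (∀ b, algebraMap K F (v b) = VV k F i b) ∧
      ∀ a : K, algebraMap K F a ∈ CC k F i ↔ a ∈ Algebra.adjoin k (Set.range v) := by
  choose v hv using fun b => hrange i _ (VV_mem k F i b)
  refine ⟨v, hv, fun a => ?_⟩
  have h1 : CC k F i = (Algebra.adjoin k (Set.range v)).map (IsScalarTower.toAlgHom k K F) := by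
    rw [AlgHom.map_adjoin, CC, ← Set.range_comp]
    congr 1
    ext z
    simp [hv]
  rw [h1, Subalgebra.mem_map]
  constructor
  · rintro ⟨b, hb, hab⟩
    have : b = a := (algebraMap K F).injective hab
    rwa [← this]
  · intro h
    exact ⟨a, h, rfl⟩

theorem crepant_algebra
    (hrange : ∀ (i : Fin p) (z : F), z ∈ CC k F i → ∃ a : K, algebraMap K F a = z)
    (i₀ : Fin p) (hgen : ∀ a : K, ∃ c s : K, algebraMap K F c ∈ CC k F i₀ ∧
      algebraMap K F s ∈ CC k F i₀ ∧ s ≠ 0 ∧ a * s = c) :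
    ∃ w : RatForms k K (2 * p), ∀ (i : Fin p) (A : Subring K),
      (∀ a : K, algebraMap K F a ∈ CC k F i → a ∈ A) →
      (∀ a ∈ A, ∃ c s : K, algebraMap K F c ∈ CC k F i ∧ algebraMap K F s ∈ CC k F i ∧
        s ≠ 0 ∧ s⁻¹ ∈ A ∧ a * s = c) →
      Generates w A := by
  let e : Fin (2 * p) ≃ Fin 2 × Fin p := finProdFinEquiv.symm
  choose v hv hmem using exists_coords k F K hrange
  have hr : ∀ i, Set.range (fun r => v i (e r)) = Set.range (v i) := fun i => by
    rw [← Function.comp_def, e.surjective.range_comp]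
  refine ⟨exteriorPower.ιMulti K (2 * p) (fun r => D k K (v i₀ (e r))), fun i A h1 h2 => ?_⟩
  rw [← omega_eq k F K e i₀ i (v i₀) (v i) (hv i₀) (hv i) ?_]
  · apply generates_of_eq
    apply regForms_eq
    · rw [hr i]
      intro c hc
      exact h1 c ((hmem i c).2 hc)
    · rw [hr i]
      intro a ha
      obtain ⟨c, s, hc, hs, hs0, hsA, has⟩ := h2 a ha
      exact ⟨c, (hmem i c).1 hc, s, (hmem i s).1 hs, hs0, hsA, has⟩
  · intro a
    obtain ⟨c, s, hc, hs, hs0, has⟩ := hgen a
    exact ⟨c, (hmem i₀ c).1 hc, s, (hmem i₀ s).1 hs, hs0, has⟩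

end

end Pool.Agent.Lib.MP_d95e25_ag
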