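import Pool.Agent.Lib.MP_d95e25_ag.Stalks

/-!
# The function field of the resolution inside the function field of `V`
-/

open HomogeneousLocalization AlgebraicGeometry CategoryTheory TopologicalSpace

namespace Pool.Agent.Lib.MP_d95e25_ag

universe u

noncomputable section

theorem exists_lift_aux {Y : Scheme.{u}} [IsIntegral Y] {U : Y.Opens} (hU : IsAffineOpen U)
    (h : genericPoint Y ∈ U) {A : CommRingCat.{u}} (s : A ⟶ Γ(Y, U)) (hs : IsIso s)
    {F : Type u} [Field F] (ev : A →+* F) (hev : Function.Injective ev) :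
    ∃ Φ : Y.functionField →+* F, ∀ w : A,
      Φ ((s ≫ Y.presheaf.germ U (genericPoint Y) h).hom w) = ev w := by
  have : Nonempty U := ⟨⟨_, h⟩⟩
  have hfr : IsFractionRing Γ(Y, U) Y.functionField :=
    functionField_isFractionRing_of_isAffineOpen Y U hU
  let g : Γ(Y, U) →+* F := ev.comp (inv s).hom
  have hg : Function.Injective g :=
    hev.comp (ConcreteCategory.bijective_of_isIso (inv s)).1
  refine ⟨IsFractionRing.lift hg, fun w => ?_⟩
  have h1 : (s ≫ Y.presheaf.germ U (genericPoint Y) h).hom w =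
      algebraMap Γ(Y, U) Y.functionField (s.hom w) := rfl
  rw [h1, IsFractionRing.lift_algebraMap]
  change ev ((s ≫ inv s).hom w) = ev w
  rw [IsIso.hom_inv_id]
  rfl

variable (p : ℕ) (k : Type u) [Field k] (F : Type u) [Field F] [Algebra (CoordRing p k) F]
  [IsFractionRing (CoordRing p k) F] [hp : Fact p.Prime]

omit hp in
theorem evAway_alpha (i : Fin p) (r : invariants p k) :
    evAway (evB_xi_ne p k F i) (alphaHom (xi p k i) r) = phiR p k F r :=
  evAway_fromZero (evB_xi_ne p k F i) r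

omit hp in
include F in
theorem evAway_frac (i : Fin p) (w : Away (reesGr (II p k)) (xi p k i)) :
    ∃ n : ℕ, ∃ c : invariants p k,
      w * alphaHom (xi p k i) (xR p k i ^ n) = alphaHom (xi p k i) c := by
  obtain ⟨n, c, hc, h⟩ := (evAway_range_one _ (evB_xi_ne p k F i) _).1 ⟨w, rfl⟩
  refine ⟨n, c, evAway_injective (phiR_injective p k F) (evB_xi_ne p k F i) (xi_mem p k i) ?_⟩
  have h' : evAway (evB_xi_ne p k F i) w = phiR p k F c / phiR p k F (xR p k i) ^ n := h
  rw [map_mul, evAway_alpha, evAway_alpha, h', map_pow, phiR_xR]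
  have := xx_ne_zero k F i
  field_simp

/-- The embedding of the function field of the resolution. -/
theorem exists_phi : ∃ Φ : (resY p k).functionField →+* F,
    (∀ i w, Φ (gammaA p k i w) = evAway (evB_xi_ne p k F i) w) ∧
    (∀ r, Φ (rhoR p k r) = phiR p k F r) := by
  have hs : IsIso (Proj.awayToSection (reesGr (II p k)) (xi p k ⟨0, hp.out.pos⟩)) := by
    have : (Proj.basicOpenIsoAway (reesGr (II p k)) (xi p k ⟨0, hp.out.pos⟩)
      (xi_mem p k _) one_pos).hom = Proj.awayToSection (reesGr (II p k)) _ := rfl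
    rw [← this]
    infer_instance
  obtain ⟨Φ, hΦ⟩ := exists_lift_aux (chartU_affine p k ⟨0, hp.out.pos⟩)
    (generic_mem p k ⟨0, hp.out.pos⟩) (Proj.awayToSection (reesGr (II p k)) _) hs
    (evAway (evB_xi_ne p k F ⟨0, hp.out.pos⟩))
    (evAway_injective (phiR_injective p k F) (evB_xi_ne p k F _) (xi_mem p k _))
  have h1 : ∀ r, Φ (rhoR p k r) = phiR p k F r := by
    intro r
    rw [← gammaA_alpha p k ⟨0, hp.out.pos⟩, ← evAway_alpha p k F ⟨0, hp.out.pos⟩]
    exact hΦ _
  refine ⟨Φ, ?_, h1⟩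
  intro i w
  obtain ⟨n, c, h⟩ := evAway_frac p k F i w
  have h2 := congrArg (fun z => Φ (gammaA p k i z)) h
  have h3 := congrArg (evAway (evB_xi_ne p k F i)) h
  simp only [map_mul, gammaA_alpha, h1] at h2
  rw [map_mul, evAway_alpha, evAway_alpha] at h3
  have h4 : phiR p k F (xR p k i ^ n) ≠ 0 := by
    rw [map_pow, phiR_xR]; exact pow_ne_zero _ (xx_ne_zero k F i)
  exact mul_right_cancel₀ h4 (h2.trans h3.symm)

end

end Pool.Agent.Lib.MP_d95e25_ag
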