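import Pool.Agent.Lib.MP_d95e25_ag.CrepAlg
import Pool.Agent.Lib.MP_d95e25_ag.Embed

/-!
# The blowup is crepant
-/

open HomogeneousLocalization AlgebraicGeometry CategoryTheory TopologicalSpace

namespace Pool.Agent.Lib.MP_d95e25_ag

universe u

noncomputable section

variable (p : ℕ) (k : Type u) [Field k] [hp : Fact p.Prime]

theorem constHom_eq (a : k) : constHom k (resF p k ≫ quotientXStr p k) a =
    rhoR p k (algebraMap k (invariants p k) a) := by
  have h1 : (Scheme.ΓSpecIso (CommRingCat.of k)).inv ≫ (resF p k ≫ quotientXStr p k).appTop ≫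
      (resY p k).presheaf.germ ⊤ (genericPoint (resY p k)) trivial =
      CommRingCat.ofHom (algebraMap k (invariants p k)) ≫
      (Scheme.ΓSpecIso (CommRingCat.of (invariants p k))).inv ≫ (resF p k).appTop ≫
      (resY p k).presheaf.germ ⊤ (genericPoint (resY p k)) trivial := by
    rw [Scheme.Hom.comp_appTop, Category.assoc, Scheme.ΓSpecIso_inv_naturality_assoc]
    rfl
  unfold constHom
  rw [h1]
  rfl

/-- Every function on the chart is in the image of the chart ring. -/
theorem germF_eq (i : Fin p) (c : Γ(resY p k, chartU p k i)) :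
    ∃ w, germF (chartU p k i) (generic_mem p k i) c = gammaA p k i w := by
  have hs : IsIso (Proj.awayToSection (reesGr (II p k)) (xi p k i)) := by
    have : (Proj.basicOpenIsoAway (reesGr (II p k)) (xi p k i)
      (xi_mem p k _) one_pos).hom = Proj.awayToSection (reesGr (II p k)) _ := rfl
    rw [← this]
    infer_instance
  obtain ⟨w, hw⟩ := (ConcreteCategory.bijective_of_isIso
    (Proj.awayToSection (reesGr (II p k)) (xi p k i))).2 c
  refine ⟨w, ?_⟩
  rw [← hw]
  rfl

theorem gammaA_eq (i : Fin p) (w : Away (reesGr (II p k)) (xi p k i)) :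
    gammaA p k i w = germF (chartU p k i) (generic_mem p k i)
      ((Proj.awayToSection (reesGr (II p k)) (xi p k i)).hom w) := rfl

theorem pullF_eq (c : Γ(quotientX p k, ⊤)) :
    ∃ r, pullF (resF p k) ⊤ trivial c = rhoR p k r := by
  refine ⟨(Scheme.ΓSpecIso (CommRingCat.of (invariants p k))).hom.hom c, ?_⟩
  unfold rhoR
  have h1 : pullF (resF p k) ⊤ trivial c = ((resF p k).appTop ≫
    (resY p k).presheaf.germ ⊤ (genericPoint (resY p k)) trivial).hom c := rfl
  rw [h1]
  have h2 : (Scheme.ΓSpecIso (CommRingCat.of (invariants p k))).hom ≫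
    (Scheme.ΓSpecIso (CommRingCat.of (invariants p k))).inv ≫ (resF p k).appTop ≫
    (resY p k).presheaf.germ ⊤ (genericPoint (resY p k)) trivial =
    (resF p k).appTop ≫ (resY p k).presheaf.germ ⊤ (genericPoint (resY p k)) trivial := by
    rw [Iso.hom_inv_id_assoc]
  exact (congrArg (fun g => g.hom c) h2).symm

theorem rhoR_eq (r : invariants p k) : rhoR p k r = pullF (resF p k) ⊤ trivial
    ((Scheme.ΓSpecIso (CommRingCat.of (invariants p k))).inv.hom r) := rfl

/-- The functions `x_i` are invertible in the local rings of the points of `D(x_i)`. -/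
theorem rhoR_inv_mem (i : Fin p) (x : quotientX p k)
    (h : resF p k (genericPoint (resY p k)) ⤳ x) (hx : x ∈ dOpen (xR p k i)) :
    rhoR p k (xR p k i) ≠ 0 ∧ (rhoR p k (xR p k i))⁻¹ ∈ localRingOver (resF p k) x h := by
  have h1 : x ∈ (Spec (CommRingCat.of (invariants p k))).basicOpen
      ((Scheme.ΓSpecIso (CommRingCat.of (invariants p k))).inv.hom (xR p k i)) := by
    have := basicOpen_eq_of_affine (R := CommRingCat.of (invariants p k)) (xR p k i)
    rw [this]
    exact hx
  rw [Scheme.mem_basicOpen_top] at h1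
  rw [rhoR_eq]
  exact localRingOver_unit (resF p k) (U := ⊤) trivial h trivial h1

theorem rhoR_mem (x : quotientX p k) (h : resF p k (genericPoint (resY p k)) ⤳ x)
    (r : invariants p k) : rhoR p k r ∈ localRingOver (resF p k) x h := by
  rw [rhoR_eq]
  exact localRingOver_germ (resF p k) (U := ⊤) trivial h trivial _

omit hp in
theorem mem_of_mul_pow {K : Type*} [Field K] (A : Subring K) {a b c : K} {n : ℕ} (hb : b ≠ 0)
    (hb' : b⁻¹ ∈ A) (hc : c ∈ A) (h : a * b ^ n = c) : a ∈ A := by
  have h2 : a = c * b⁻¹ ^ n := by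
    rw [← h, mul_assoc, ← mul_pow, mul_inv_cancel₀ hb, one_pow, mul_one]
  rw [h2]
  exact mul_mem hc (pow_mem hb' n)

theorem gammaA_mem_over (i : Fin p) (x : quotientX p k)
    (h : resF p k (genericPoint (resY p k)) ⤳ x) (hx : x ∈ dOpen (xR p k i))
    (w : Away (reesGr (II p k)) (xi p k i)) :
    gammaA p k i w ∈ localRingOver (resF p k) x h := by
  obtain ⟨hx0, hxinv⟩ := rhoR_inv_mem p k i x h hx
  obtain ⟨n, c, hc⟩ := evAway_frac p k (FractionRing (CoordRing p k)) i w
  have h1 := congrArg (gammaA p k i) hc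
  rw [map_mul, gammaA_alpha, gammaA_alpha, map_pow] at h1
  exact mem_of_mul_pow (localRingOver (resF p k) x h) hx0 hxinv (rhoR_mem p k x h c) h1

theorem over_frac (x : quotientX p k) (h : resF p k (genericPoint (resY p k)) ⤳ x)
    {a : (resY p k).functionField} (ha : a ∈ localRingOver (resF p k) x h) :
    ∃ c s : invariants p k, rhoR p k s ≠ 0 ∧ (rhoR p k s)⁻¹ ∈ localRingOver (resF p k) x h ∧
      a * rhoR p k s = rhoR p k c := by
  obtain ⟨c, s, hs0, hs1, hcs⟩ := localRingOver_fraction (resF p k) (U := ⊤)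
    (isAffineOpen_top _) trivial h trivial ha
  obtain ⟨wc, hwc⟩ := pullF_eq p k c
  obtain ⟨ws, hws⟩ := pullF_eq p k s
  rw [hwc, hws] at hcs
  rw [hws] at hs0 hs1
  exact ⟨wc, ws, hs0, hs1, hcs⟩

theorem exists_fraction_top (i : Fin p) (a : (resY p k).functionField) :
    ∃ c s, gammaA p k i s ≠ 0 ∧ a * gammaA p k i s = gammaA p k i c := by
  have : Nonempty (chartU p k i) := ⟨⟨_, generic_mem p k i⟩⟩
  have hfr : IsFractionRing Γ(resY p k, chartU p k i) (resY p k).functionField :=
    functionField_isFractionRing_of_isAffineOpen (resY p k) (chartU p k i) (chartU_affine p k i)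
  obtain ⟨⟨c, s⟩, hcs⟩ := IsLocalization.surj (nonZeroDivisors Γ(resY p k, chartU p k i)) a
  have hs : algebraMap Γ(resY p k, chartU p k i) (resY p k).functionField s ≠ 0 :=
    IsFractionRing.to_map_ne_zero_of_mem_nonZeroDivisors s.2
  obtain ⟨wc, hwc⟩ := germF_eq p k i c
  obtain ⟨ws, hws⟩ := germF_eq p k i s
  refine ⟨wc, ws, ?_, ?_⟩
  · rw [← hws]; exact hs
  · rw [← hws, ← hwc]; exact hcs

variable [CharP k p]

/-- The abstract conclusion about forms, for any field `K` isomorphic to the function field. -/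
theorem crepant_transfer (F : Type u) [Field F] [Algebra (CoordRing p k) F]
    [IsFractionRing (CoordRing p k) F] [Algebra k F] [IsScalarTower k (CoordRing p k) F]
    (Φ : (resY p k).functionField →+* F)
    (hΦ1 : ∀ i w, Φ (gammaA p k i w) = evAway (evB_xi_ne p k F i) w)
    (hΦ2 : ∀ r, Φ (rhoR p k r) = phiR p k F r)
    (hcodim : ∀ x : quotientX p k, ringKrullDim ((quotientX p k).presheaf.stalk x) = 1 →
      x ∈ smU p k) :
    IsCrepant k (2 * p) (quotientXStr p k) (resF p k) := by
  let _ : Algebra k (resY p k).functionField :=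
    (constHom k (resF p k ≫ quotientXStr p k)).toAlgebra
  let _ : Algebra (resY p k).functionField F := Φ.toAlgebra
  have htower : IsScalarTower k (resY p k).functionField F := by
    refine IsScalarTower.of_algebraMap_eq fun a => ?_
    change algebraMap k F a = Φ (constHom k (resF p k ≫ quotientXStr p k) a)
    rw [constHom_eq, hΦ2, IsScalarTower.algebraMap_apply k (CoordRing p k) F]
    rfl
  have hchart : ∀ i z, Φ z ∈ CC k F i → ∃ w, z = gammaA p k i w := by
    intro i z hz
    obtain ⟨w, hw⟩ := (chart_range p k F i _).2 hz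
    exact ⟨w, Φ.injective (by rw [hΦ1, hw])⟩
  have hmem : ∀ i w, Φ (gammaA p k i w) ∈ CC k F i := fun i w => by
    rw [hΦ1]; exact (chart_range p k F i _).1 ⟨w, rfl⟩
  have hrange : ∀ (i : Fin p) (z : F), z ∈ CC k F i →
      ∃ a : (resY p k).functionField, algebraMap (resY p k).functionField F a = z := by
    intro i z hz
    obtain ⟨w, hw⟩ := (chart_range p k F i _).2 hz
    exact ⟨gammaA p k i w, (hΦ1 i w).trans hw⟩
  have hfrac : ∀ (i : Fin p) (y : resY p k), y ∈ chartU p k i → ∀ a ∈ localRing y,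
      ∃ c s : (resY p k).functionField, Φ c ∈ CC k F i ∧ Φ s ∈ CC k F i ∧ s ≠ 0 ∧
        s⁻¹ ∈ localRing y ∧ a * s = c := by
    intro i y hy a ha
    obtain ⟨c, s, hs0, hs1, hcs⟩ := localRing_fraction (chartU_affine p k i) hy
      (generic_mem p k i) ha
    obtain ⟨wc, hwc⟩ := germF_eq p k i c
    obtain ⟨ws, hws⟩ := germF_eq p k i s
    rw [hwc, hws] at hcs
    rw [hws] at hs0 hs1
    exact ⟨_, _, hmem i wc, hmem i ws, hs0, hs1, hcs⟩
  have hgen : ∀ a : (resY p k).functionField, ∃ c s : (resY p k).functionField,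
      Φ c ∈ CC k F ⟨0, hp.out.pos⟩ ∧ Φ s ∈ CC k F ⟨0, hp.out.pos⟩ ∧ s ≠ 0 ∧ a * s = c := by
    intro a
    obtain ⟨c, s, hs, hcs⟩ := exists_fraction_top p k ⟨0, hp.out.pos⟩ a
    exact ⟨_, _, hmem _ c, hmem _ s, hs, hcs⟩
  obtain ⟨w, hw⟩ := crepant_algebra k F (resY p k).functionField hrange ⟨0, hp.out.pos⟩ hgen
  refine ⟨w, fun y => ?_, fun x h hx => ?_⟩
  · obtain ⟨i, hi⟩ := Opens.mem_iSup.1 ((iSup_basicOpen p k).ge (Set.mem_univ y) : y ∈ _)
    refine hw i (localRing y) ?_ (hfrac i y hi)
    intro a ha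
    obtain ⟨w, rfl⟩ := hchart i a ha
    rw [gammaA_eq]
    exact localRing_germ hi _ _
  · obtain ⟨i, hi⟩ := Opens.mem_iSup.1 (hcodim x hx)
    refine hw i (localRingOver (resF p k) x h) ?_ ?_
    · intro a ha
      obtain ⟨w, rfl⟩ := hchart i a ha
      exact gammaA_mem_over p k i x h hi w
    · intro a ha
      obtain ⟨wc, ws, hs0, hs1, hcs⟩ := over_frac p k x h ha
      refine ⟨_, _, ?_, ?_, hs0, hs1, hcs⟩
      · exact (hΦ2 wc).symm ▸ phiR_mem p k F i wc
      · exact (hΦ2 ws).symm ▸ phiR_mem p k F i ws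

end

end Pool.Agent.Lib.MP_d95e25_ag
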