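import Mathlib

/-!
# Definitions for MP_d95e25_ag: the quotient of `𝔸^{2p}` by `ℤ/p` acting by `p` Jordan blocks of size two
-/

open CategoryTheory AlgebraicGeometry

namespace Pool.Agent.Lib.MP_d95e25_ag

universe u

noncomputable section

/-- The coordinate ring `k[V]` of `V = 𝔸^{2p}_k`: the variables are indexed by
`Fin 2 × Fin p`, the pair `(a, i)` being the `a`-th coordinate in the `i`-th Jordan block. -/
abbrev CoordRing (p : ℕ) (k : Type u) [Field k] : Type u := MvPolynomial (Fin 2 × Fin p) k

/-- The block-diagonal matrix `J^{⊕p}`, `J = (1 1; 0 1)`, by which the generator of `ℤ/p` acts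
on `V`. -/
def genMatrix (p : ℕ) (k : Type u) [Field k] : Matrix (Fin 2 × Fin p) (Fin 2 × Fin p) k :=
  Matrix.blockDiagonal fun _ : Fin p => !![1, 1; 0, 1]

/-- The action of the generator on `k[V]`: `f(v) ↦ f(J^{⊕p} v)`. -/
def genAct (p : ℕ) (k : Type u) [Field k] : CoordRing p k →ₐ[k] CoordRing p k :=
  MvPolynomial.aeval fun v => ∑ w, MvPolynomial.C (genMatrix p k v w) * MvPolynomial.X w

/-- The ring of invariants `k[V]^G`, `G = ℤ/p` (an element is invariant under the group
if and only if it is fixed by the generator). -/
def invariants (p : ℕ) (k : Type u) [Field k] : Subalgebra k (CoordRing p k) :=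
  AlgHom.equalizer (genAct p k) (AlgHom.id k (CoordRing p k))

/-- The quotient variety `X = 𝔸^{2p}_k / G = Spec k[V]^G`. -/
abbrev quotientX (p : ℕ) (k : Type u) [Field k] : Scheme.{u} :=
  Spec (CommRingCat.of (invariants p k))

/-- The structure morphism `X → Spec k`. -/
def quotientXStr (p : ℕ) (k : Type u) [Field k] : quotientX p k ⟶ Spec (CommRingCat.of k) :=
  Spec.map (CommRingCat.ofHom (algebraMap k (invariants p k)))

/-- The space `⋀^d Ω_{K/k}` of rational `d`-forms of a field `K` over `k`. -/
def RatForms (k K : Type u) [Field k] [Field K] [Algebra k K] (d : ℕ) : Type u :=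
  ⋀[K]^d Ω[K⁄k]

instance (k K : Type u) [Field k] [Field K] [Algebra k K] (d : ℕ) :
    AddCommGroup (RatForms k K d) := Submodule.addCommGroup (⋀[K]^d Ω[K⁄k])

instance (k K : Type u) [Field k] [Field K] [Algebra k K] (d : ℕ) :
    Module K (RatForms k K d) := Submodule.module (⋀[K]^d Ω[K⁄k])

/-- The product `v_1 ∧ … ∧ v_d` in `⋀^d M`. -/
def wedge (R : Type u) {M : Type u} [Field R] [AddCommGroup M] [Module R M] {d : ℕ}
    (v : Fin d → M) : ⋀[R]^d M :=
  exteriorPower.ιMulti R d v

/-- The form `da_1 ∧ … ∧ da_d`. -/
def dForm (k : Type u) {K : Type u} [Field k] [Field K] [Algebra k K] {d : ℕ} (a : Fin d → K) :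
    RatForms k K d :=
  wedge K fun i => KaehlerDifferential.D k K (a i)

/-- The regular `d`-forms over a subring `A` of a field `K` over `k`: the `A`-submodule of the
space `⋀^d Ω_{K/k}` of rational `d`-forms generated by the forms `da_1 ∧ … ∧ da_d`, `a_i ∈ A`,
i.e. the image of `⋀^d Ω_{A/k}`. -/
def regularForms (k : Type u) {K : Type u} [Field k] [Field K] [Algebra k K] (A : Subring K)
    (d : ℕ) : Submodule A (RatForms k K d) :=
  Submodule.span A {w | ∃ a : Fin d → K, (∀ i, a i ∈ A) ∧ w = dForm k a}

/-- The rational `d`-form `w` generates the module of regular `d`-forms over `A`. -/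
def Generates {k K : Type u} [Field k] [Field K] [Algebra k K] {d : ℕ} (w : RatForms k K d)
    (A : Subring K) : Prop :=
  regularForms k A d = Submodule.span A {w}

/-- The ring homomorphism `k → K(Y)` given by the structure morphism `s : Y → Spec k`. -/
def constHom (k : Type u) [Field k] {Y : Scheme.{u}} [IsIntegral Y]
    (s : Y ⟶ Spec (CommRingCat.of k)) : k →+* Y.functionField :=
  ((Scheme.ΓSpecIso (CommRingCat.of k)).inv ≫ s.appTop ≫
    Y.presheaf.germ ⊤ (genericPoint Y) trivial).hom

/-- The local ring `O_{Y,y}` as a subring of the function field `K(Y)`. -/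
def localRing {Y : Scheme.{u}} [IsIntegral Y] (y : Y) : Subring Y.functionField :=
  (algebraMap (Y.presheaf.stalk y) Y.functionField).range

/-- The local ring `O_{X,x}` as a subring of the function field `K(Y)`, via a morphism
`f : Y → X`, for a point `x` which is a specialization of the image of the generic point
of `Y` (for birational `f` between integral schemes this is every point `x` of `X`). -/
def localRingOver {X Y : Scheme.{u}} [IsIntegral Y] (f : Y ⟶ X) (x : X)
    (h : f (genericPoint Y) ⤳ x) : Subring Y.functionField :=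
  (X.presheaf.stalkSpecializes h ≫ f.stalkMap (genericPoint Y)).hom.range

/-- `f : Y → X` is a resolution of the `d`-dimensional variety `X` over the field `k`
(with structure morphism `s`): `f` is proper, `Y` is smooth over `k` of dimension `d`, and `f` is
birational, moreover an isomorphism over an open subset which contains all points of `X` of
codimension at most one. -/
structure IsResolution (k : Type u) [Field k] (d : ℕ) {X Y : Scheme.{u}}
    (s : X ⟶ Spec (CommRingCat.of k)) (f : Y ⟶ X) : Prop where
  proper : IsProper f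
  smooth : SmoothOfRelativeDimension d (f ≫ s)
  birational : ∃ U : X.Opens, Dense (U : Set X) ∧ Dense ((f ⁻¹ᵁ U : Y.Opens) : Set Y) ∧
    IsIso (f ∣_ U) ∧ ∀ x : X, ringKrullDim (X.presheaf.stalk x) ≤ 1 → x ∈ U

/-- `f : Y → X` is crepant, in the strong form that there is a rational `d`-form `w` which
generates the regular `d`-forms at every point of `Y` (so `K_Y = div_Y w = 0`) and at every
point of codimension one of `X` (so `K_X = div_X w = 0`); hence `K_{Y/X} = K_Y - f^* K_X = 0`. -/
def IsCrepant (k : Type u) [Field k] (d : ℕ) {X Y : Scheme.{u}} [IsIntegral Y]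
    (s : X ⟶ Spec (CommRingCat.of k)) (f : Y ⟶ X) : Prop :=
  let _ : Algebra k Y.functionField := (constHom k (f ≫ s)).toAlgebra
  ∃ w : RatForms k Y.functionField d,
    (∀ y : Y, Generates w (localRing y)) ∧
    (∀ (x : X) (h : f (genericPoint Y) ⤳ x), ringKrullDim (X.presheaf.stalk x) = 1 →
      Generates w (localRingOver f x h))

end

end Pool.Agent.Lib.MP_d95e25_ag
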