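import Pool.Agent.Lib.MP_d95e25_ag.Crepant

/-!
# Codimension of the centre and the final theorem
-/

open AlgebraicGeometry CategoryTheory TopologicalSpace

namespace Pool.Agent.Lib.MP_d95e25_ag

universe u

noncomputable section

variable (p : ℕ) (k : Type u) [Field k] [hp : Fact p.Prime]

/-- A prime ideal of the ring of invariants containing all `x_i` has height at least two. -/
theorem two_le_height (P : Ideal (invariants p k)) [P.IsPrime] (h : ∀ i, xR p k i ∈ P) :
    2 ≤ P.height := by
  have h01 : (0 : ℕ) < p := hp.out.pos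
  have h11 : (1 : ℕ) < p := hp.out.one_lt
  let i0 : Fin p := ⟨0, h01⟩
  let i1 : Fin p := ⟨1, h11⟩
  let Q : Ideal (invariants p k) := Ideal.comap (invariants p k).val.toRingHom
    (Ideal.span {(MvPolynomial.X (1, i0) : CoordRing p k)})
  have hQmem : ∀ f : invariants p k, f ∈ Q ↔
      (MvPolynomial.X (1, i0) : CoordRing p k) ∣ (f : CoordRing p k) := by
    intro f
    rw [Ideal.mem_comap, Ideal.mem_span_singleton]
    rfl
  have hspan : (Ideal.span {(MvPolynomial.X (1, i0) : CoordRing p k)}).IsPrime := by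
    rw [Ideal.span_singleton_prime (MvPolynomial.X_ne_zero _)]
    exact MvPolynomial.X_prime
  have hQ : Q.IsPrime := Ideal.IsPrime.comap _
  have h0 : (⊥ : Ideal (invariants p k)) < Q := by
    rw [bot_lt_iff_ne_bot]
    intro hbot
    have : xR p k i0 ∈ Q := (hQmem _).2 (dvd_refl _)
    rw [hbot] at this
    exact xR_ne_zero p k i0 this
  have hQP : Q < P := by
    refine lt_of_le_of_ne ?_ ?_
    · intro f hf
      obtain ⟨g, hg⟩ := (hQmem f).1 hf
      have hg' : g ∈ invariants p k := by
        rw [mem_invariants]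
        have h1 := mem_invariants.1 f.2
        rw [hg, map_mul, genAct_X_one] at h1
        exact mul_left_cancel₀ (MvPolynomial.X_ne_zero _) h1
      have : f = xR p k i0 * ⟨g, hg'⟩ := Subtype.ext hg
      rw [this]
      exact P.mul_mem_right _ (h i0)
    · intro heq
      have h1 : xR p k i1 ∈ Q := by rw [heq]; exact h i1
      have h2 := (hQmem _).1 h1
      have h3 : (MvPolynomial.X (1, i0) : CoordRing p k) ∣ MvPolynomial.X (1, i1) := h2
      rw [MvPolynomial.X_dvd_X] at h3
      simp [i0, i1] at h3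
  have hb : (⊥ : Ideal (invariants p k)).IsPrime := Ideal.isPrime_bot
  have h2 := Ideal.height_add_one_le_of_lt_of_isPrime h0
  have h3 := Ideal.height_add_one_le_of_lt_of_isPrime hQP
  calc (2 : ℕ∞) = 0 + 1 + 1 := by norm_num
    _ ≤ (⊥ : Ideal (invariants p k)).height + 1 + 1 := by gcongr; exact zero_le
    _ ≤ Q.height + 1 := by gcongr
    _ ≤ P.height := h3

theorem mem_smU_of_codim (x : quotientX p k)
    (hx : ringKrullDim ((quotientX p k).presheaf.stalk x) ≤ 1) : x ∈ smU p k := by
  by_contra hcon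
  have h1 : ∀ i, xR p k i ∈ x.asIdeal := by
    intro i
    by_contra h
    exact hcon (Opens.mem_iSup.2 ⟨i, h⟩)
  have hP : x.asIdeal.IsPrime := x.isPrime
  have h2 := two_le_height p k x.asIdeal h1
  rw [ringKrullDim_stalk_eq_coheight, ← idealHeight_eq_coheight] at hx
  have h3 : ((2 : ℕ∞) : WithBot ℕ∞) ≤ ((1 : ℕ∞) : WithBot ℕ∞) :=
    le_trans (WithBot.coe_le_coe.2 h2) hx
  exact absurd (WithBot.coe_le_coe.1 h3) (by decide)

variable [CharP k p]

theorem resF_isCrepant : IsCrepant k (2 * p) (quotientXStr p k) (resF p k) := by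
  obtain ⟨Φ, h1, h2⟩ := exists_phi p k (FractionRing (CoordRing p k))
  exact crepant_transfer p k (FractionRing (CoordRing p k)) Φ h1 h2
    fun x hx => mem_smU_of_codim p k x hx.le

theorem resF_isResolution : IsResolution k (2 * p) (quotientXStr p k) (resF p k) where
  proper := blow_isProper (II p k) (II_fg p k)
  smooth := resF_smooth p k
  birational := by
    have hne : ∃ x : quotientX p k, x ∈ smU p k := by
      refine ⟨(⊥ : PrimeSpectrum (invariants p k)), Opens.mem_iSup.2 ⟨⟨0, hp.out.pos⟩, ?_⟩⟩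
      intro h
      exact xR_ne_zero p k _ h
    obtain ⟨x, hx⟩ := hne
    have hiso := resF_isIso p k
    let y := inv (resF p k ∣_ smU p k) ⟨x, hx⟩
    have hy : y.1 ∈ resF p k ⁻¹ᵁ smU p k := y.2
    refine ⟨smU p k, ?_, ?_, hiso, mem_smU_of_codim p k⟩
    · have : IrreducibleSpace (quotientX p k) :=
        inferInstanceAs (IrreducibleSpace (Spec (CommRingCat.of (invariants p k))))
      exact (smU p k).isOpen.dense ⟨x, hx⟩
    · exact (resF p k ⁻¹ᵁ smU p k).isOpen.dense ⟨y.1, hy⟩

end

end Pool.Agent.Lib.MP_d95e25_ag
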