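import Pool.Agent.Lib.MP_d95e25_ag.Defs

/-!
# Forms for MP_d95e25_ag
-/

open KaehlerDifferential

namespace Pool.Agent.Lib.MP_d95e25_ag

universe u

noncomputable section

section general

variable {k K : Type u} [Field k] [Field K] [Algebra k K]

theorem smul_mem_of_mem {M : Type u} [AddCommGroup M] [Module K M] (A : Subring K)
    (N : Submodule A M) {a : K} (ha : a ∈ A) {x : M} (hx : x ∈ N) : a • x ∈ N :=
  N.smul_mem ⟨a, ha⟩ hx

/-- Expansion of a decomposable form in terms of a spanning family over a subring. -/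
theorem iMulti_mem_span {M : Type u} [AddCommGroup M] [Module K M] (A : Subring K) {d : ℕ}
    (g w : Fin d → M)
    (hw : ∀ i, w i ∈ Submodule.span A (Set.range g)) :
    exteriorPower.ιMulti K d w ∈ Submodule.span A {exteriorPower.ιMulti K d g} := by
  classical
  choose m hm using fun i => (Submodule.mem_span_range_iff_exists_fun A).1 (hw i)
  have h1 : w = fun i => ∑ j, ((m i j : A) : K) • g j := by
    funext i
    rw [← hm i]
    rfl
  have h2 : exteriorPower.ιMulti K d w = ∑ r : Fin d → Fin d,
      (∏ i, ((m i (r i) : A) : K)) • exteriorPower.ιMulti K d (fun i => g (r i)) := by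
    rw [h1]
    have := (exteriorPower.ιMulti K d (M := M)).toMultilinearMap.map_sum
      (fun i j => ((m i j : A) : K) • g j)
    refine this.trans (Finset.sum_congr rfl fun r _ => ?_)
    exact (exteriorPower.ιMulti K d (M := M)).toMultilinearMap.map_smul_univ _ _
  rw [h2]
  refine Submodule.sum_mem _ fun r _ => ?_
  by_cases hr : Function.Injective r
  · let σ : Equiv.Perm (Fin d) := Equiv.ofBijective r (Finite.injective_iff_bijective.1 hr)
    have h3 : exteriorPower.ιMulti K d (fun i => g (r i)) =
        Equiv.Perm.sign σ • exteriorPower.ιMulti K d g :=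
      (exteriorPower.ιMulti K d (M := M)).map_perm g σ
    rw [h3]
    refine smul_mem_of_mem A _ (prod_mem fun i _ => (m i (r i)).2) ?_
    rcases Int.units_eq_one_or (Equiv.Perm.sign σ) with h | h
    · rw [h, one_smul]
      exact Submodule.mem_span_singleton_self _
    · rw [h, Units.smul_def, Units.val_neg, Units.val_one, neg_smul, one_smul]
      exact Submodule.neg_mem _ (Submodule.mem_span_singleton_self _)
  · have h3 : exteriorPower.ιMulti K d (fun i => g (r i)) = 0 := by
      apply (exteriorPower.ιMulti K d (M := M)).map_eq_zero_of_not_injective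
      intro h
      exact hr (h.of_comp (f := g))
    rw [h3, smul_zero]
    exact Submodule.zero_mem _

theorem D_mem_span (A : Subring K) {ι : Type*} (v : ι → K)
    (hv : ∀ c ∈ Algebra.adjoin k (Set.range v), c ∈ A)
    (hfrac : ∀ a ∈ A, ∃ c ∈ Algebra.adjoin k (Set.range v), ∃ s ∈ Algebra.adjoin k (Set.range v),
      s ≠ 0 ∧ s⁻¹ ∈ A ∧ a * s = c) {a : K} (ha : a ∈ A) :
    D k K a ∈ Submodule.span A (Set.range fun i => D k K (v i)) := by
  have h1 : ∀ c ∈ Algebra.adjoin k (Set.range v),
      D k K c ∈ Submodule.span A (Set.range fun i => D k K (v i)) := by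
    intro c hc
    induction hc using Algebra.adjoin_induction with
    | mem x hx =>
      obtain ⟨i, rfl⟩ := hx
      exact Submodule.subset_span ⟨i, rfl⟩
    | algebraMap r => rw [Derivation.map_algebraMap]; exact Submodule.zero_mem _
    | add x y hx hy hx' hy' => rw [map_add]; exact Submodule.add_mem _ hx' hy'
    | mul x y hx hy hx' hy' =>
      rw [Derivation.leibniz]
      exact Submodule.add_mem _ (smul_mem_of_mem A _ (hv x hx) hy')
        (smul_mem_of_mem A _ (hv y hy) hx')
  obtain ⟨c, hc, s, hs, hs0, hsA, hac⟩ := hfrac a ha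
  have h2 : a = c * s⁻¹ := by rw [← hac]; field_simp
  rw [h2, Derivation.leibniz, Derivation.leibniz_inv]
  exact Submodule.add_mem _ (smul_mem_of_mem A _ (hv c hc)
    (smul_mem_of_mem A _ (neg_mem (pow_mem hsA 2)) (h1 s hs)))
    (smul_mem_of_mem A _ hsA (h1 c hc))

/-- Working form of `regularForms`. -/
def regForms (k K : Type u) [Field k] [Field K] [Algebra k K] (A : Subring K) (d : ℕ) :
    Submodule A (⋀[K]^d Ω[K⁄k]) :=
  Submodule.span A {w | ∃ a : Fin d → K, (∀ i, a i ∈ A) ∧
    w = exteriorPower.ιMulti K d fun i => KaehlerDifferential.D k K (a i)}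

theorem generates_of_eq (A : Subring K) {d : ℕ} (w : ⋀[K]^d Ω[K⁄k])
    (h : regForms k K A d = Submodule.span A {w}) : Generates (k := k) (d := d) w A := h

/-- The regular forms over a localization of an algebra generated by `d` elements. -/
theorem regForms_eq (A : Subring K) {d : ℕ} (v : Fin d → K)
    (hv : ∀ c ∈ Algebra.adjoin k (Set.range v), c ∈ A)
    (hfrac : ∀ a ∈ A, ∃ c ∈ Algebra.adjoin k (Set.range v), ∃ s ∈ Algebra.adjoin k (Set.range v),
      s ≠ 0 ∧ s⁻¹ ∈ A ∧ a * s = c) :
    regForms k K A d =
      Submodule.span A {exteriorPower.ιMulti K d fun i => D k K (v i)} := by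
  apply le_antisymm
  · apply Submodule.span_le.2
    rintro w ⟨a, ha, rfl⟩
    exact iMulti_mem_span A _ _ fun i => D_mem_span A v hv hfrac (ha i)
  · apply Submodule.span_le.2
    rintro w rfl
    exact Submodule.subset_span ⟨v, fun i => hv _ (Algebra.subset_adjoin ⟨i, rfl⟩), rfl⟩

/-- If `K` is the fraction field of an algebra generated by `d` elements, the top forms
are one-dimensional. -/
theorem exists_smul_eq {d : ℕ} (v w : Fin d → K)
    (hfrac : ∀ a : K, ∃ c ∈ Algebra.adjoin k (Set.range v),
      ∃ s ∈ Algebra.adjoin k (Set.range v), s ≠ 0 ∧ a * s = c) :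
    ∃ c : K, exteriorPower.ιMulti K d (fun i => D k K (w i)) =
      c • exteriorPower.ιMulti K d fun i => D k K (v i) := by
  have h := iMulti_mem_span (⊤ : Subring K) (fun i => D k K (v i)) (fun i => D k K (w i))
    fun i => D_mem_span ⊤ v (fun _ _ => Subring.mem_top _) (fun a _ => by
      obtain ⟨c, hc, s, hs, hs0, h⟩ := hfrac a
      exact ⟨c, hc, s, hs, hs0, Subring.mem_top _, h⟩) (Subring.mem_top _)
  obtain ⟨c, hc⟩ := Submodule.mem_span_singleton.1 h
  exact ⟨c, hc.symm⟩

end general

end

end Pool.Agent.Lib.MP_d95e25_ag
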