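import Pool.Agent.Lib.MP_d95e25_ag.Alg
import Pool.Agent.Lib.MP_d95e25_ag.Forms

/-!
# The Jacobian computation for MP_d95e25_ag
-/

open KaehlerDifferential MvPolynomial

namespace Pool.Agent.Lib.MP_d95e25_ag

universe u

noncomputable section

variable {p : ℕ} (k F : Type u) [Field k] [Field F] [Algebra (CoordRing p k) F]
  [IsFractionRing (CoordRing p k) F] [Algebra k F] [IsScalarTower k (CoordRing p k) F]

/-- The basis `dx_i, dy_i` of the differentials of the function field. -/
def basisF : Module.Basis (Fin 2 × Fin p) F Ω[F⁄k] :=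
  (KaehlerDifferential.mvPolynomialBasis k (Fin 2 × Fin p)).ofIsLocalizedModule F
    (nonZeroDivisors (CoordRing p k)) (KaehlerDifferential.map k k (CoordRing p k) F)

theorem basisF_apply (v : Fin 2 × Fin p) :
    basisF k F v = D k F (algebraMap (CoordRing p k) F (X v)) := by
  rw [basisF, Module.Basis.ofIsLocalizedModule_apply, mvPolynomialBasis_apply, map_D]

/-- The partial derivatives on the function field. -/
def partialF (c : Fin 2 × Fin p) : Derivation k F F :=
  ((basisF k F).coord c).compDer (D k F)

theorem partialF_X (c v : Fin 2 × Fin p) :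
    partialF k F c (algebraMap (CoordRing p k) F (X v)) = if v = c then 1 else 0 := by
  have : partialF k F c (algebraMap (CoordRing p k) F (X v)) =
    (basisF k F).coord c (D k F (algebraMap (CoordRing p k) F (X v))) := rfl
  rw [this, ← basisF_apply, Module.Basis.coord_apply, Module.Basis.repr_self,
    Finsupp.single_apply]

theorem partialF_xx (c : Fin 2 × Fin p) (i : Fin p) :
    partialF k F c (xx k F i) = if ((1, i) : Fin 2 × Fin p) = c then 1 else 0 :=
  partialF_X k F c _

theorem partialF_yy (c : Fin 2 × Fin p) (i : Fin p) :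
    partialF k F c (yy k F i) = if ((0, i) : Fin 2 × Fin p) = c then 1 else 0 :=
  partialF_X k F c _

omit [IsFractionRing (CoordRing p k) F] [Algebra k F] [IsScalarTower k (CoordRing p k) F]
  [Algebra (CoordRing p k) F] [Field k] in
theorem det_diag_add_col {n : Type*} [Fintype n] [DecidableEq n] (d c : n → F) (i : n)
    (hc : c i = 0) (hd : ∀ j, d j ≠ 0) :
    (Matrix.of fun r l => (if r = l then d r else 0) + (if l = i then c r else 0)).det =
      ∏ j, d j := by
  have h : (Matrix.of fun r l => (if r = l then d r else 0) + (if l = i then c r else 0)) =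
      Matrix.diagonal d * (1 + Matrix.replicateCol Unit (fun r => c r / d r) *
        Matrix.replicateRow Unit (fun l => if l = i then (1 : F) else 0)) := by
    ext r l
    rw [Matrix.diagonal_mul, Matrix.add_apply, Matrix.one_apply, Matrix.mul_apply]
    simp only [Matrix.of_apply, Finset.univ_unique, Matrix.replicateCol_apply,
      Matrix.replicateRow_apply, Finset.sum_const, Finset.card_singleton, one_smul]
    have := hd r
    split_ifs <;> (try field_simp) <;> (try ring)
  rw [h, Matrix.det_mul, Matrix.det_diagonal, Matrix.det_one_add_replicateCol_mul_replicateRow]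
  simp [dotProduct, hc]

/-- The Jacobian matrix of the `i`-th chart. -/
def jac (i : Fin p) : Matrix (Fin 2 × Fin p) (Fin 2 × Fin p) F :=
  Matrix.of fun r c => partialF k F c (VV k F i r)

/-- Splitting the index set. -/
def splitEquiv (p : ℕ) : Fin p ⊕ Fin p ≃ Fin 2 × Fin p where
  toFun := Sum.elim (fun j => (0, j)) (fun j => (1, j))
  invFun v := if v.1 = 0 then Sum.inl v.2 else Sum.inr v.2
  left_inv v := by rcases v with j | j <;> simp
  right_inv v := by
    obtain ⟨a, j⟩ := v
    fin_cases a <;> simp

theorem partialF_div (c : Fin 2 × Fin p) (i j : Fin p) :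
    partialF k F c (xx k F j / xx k F i) =
      (xx k F i)⁻¹ * (if ((1, j) : Fin 2 × Fin p) = c then 1 else 0) -
        xx k F j * ((xx k F i)⁻¹) ^ 2 * (if ((1, i) : Fin 2 × Fin p) = c then 1 else 0) := by
  rw [Derivation.leibniz_div, partialF_xx, partialF_xx]
  have := xx_ne_zero k F i
  simp only [smul_eq_mul]
  field_simp

theorem jac_det_blocks (i : Fin p) : (jac k F i).det =
    (Matrix.of fun r l : Fin p => partialF k F (0, l) (VV k F i (0, r))).det *
    (Matrix.of fun r l : Fin p => partialF k F (1, l) (VV k F i (1, r))).det := by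
  rw [← Matrix.det_submatrix_equiv_self (splitEquiv p)]
  have h : (jac k F i).submatrix (splitEquiv p) (splitEquiv p) = Matrix.fromBlocks
      (Matrix.of fun r l : Fin p => partialF k F (0, l) (VV k F i (0, r)))
      (Matrix.of fun r l : Fin p => partialF k F (1, l) (VV k F i (0, r))) 0
      (Matrix.of fun r l : Fin p => partialF k F (1, l) (VV k F i (1, r))) := by
    ext r l
    rcases r with r | r <;> rcases l with l | l
    · rfl
    · rfl
    · change partialF k F (0, l) (VV k F i (1, r)) = 0
      by_cases h : r = i
      · subst h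
        rw [VV_one_self, partialF_xx, if_neg (by simp)]
      · rw [VV_one _ _ h, partialF_div, if_neg (by simp), if_neg (by simp)]
        simp
    · rfl
  rw [h, Matrix.det_fromBlocks_zero₂₁]

theorem jac_det_x (i : Fin p) :
    (Matrix.of fun r l : Fin p => partialF k F (1, l) (VV k F i (1, r))).det =
      ∏ j : Fin p, if j = i then 1 else (xx k F i)⁻¹ := by
  have hx := xx_ne_zero k F i
  rw [← det_diag_add_col F (fun j => if j = i then 1 else (xx k F i)⁻¹)
    (fun j => if j = i then 0 else - (xx k F j * ((xx k F i)⁻¹) ^ 2)) i (by simp)]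
  · congr 1
    ext r l
    simp only [Matrix.of_apply]
    by_cases h : r = i
    · subst h
      rw [VV_one_self, partialF_xx]
      by_cases hl : r = l
      · simp [hl]
      · simp [hl]
    · rw [VV_one _ _ h, partialF_div]
      by_cases hl : r = l
      · subst hl
        simp [h, Ne.symm h]
      · by_cases hl' : i = l
        · subst hl'
          simp [h]
        · simp [hl, hl', Ne.symm hl']
  · intro j
    split_ifs
    · exact one_ne_zero
    · exact inv_ne_zero hx

theorem jac_det_y [Fact p.Prime] [CharP k p] (i : Fin p) :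
    (Matrix.of fun r l : Fin p => partialF k F (0, l) (VV k F i (0, r))).det =
      ∏ j : Fin p, if j = i then - (xx k F i) ^ (p - 1) else 1 := by
  have := charP_FF (p := p) k F
  have hx := xx_ne_zero k F i
  rw [← det_diag_add_col F (fun j => if j = i then - (xx k F i) ^ (p - 1) else 1)
    (fun j => if j = i then 0 else - (xx k F j / xx k F i)) i (by simp)]
  · congr 1
    ext r l
    simp only [Matrix.of_apply]
    by_cases h : r = i
    · subst h
      rw [VV_zero_self, map_sub, Derivation.leibniz_pow, Derivation.leibniz,
        Derivation.leibniz_pow, partialF_xx, partialF_yy]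
      by_cases hl : r = l
      · simp [hl]
      · simp [hl]
    · rw [VV_zero _ _ h, map_sub, Derivation.leibniz, partialF_div, partialF_yy, partialF_yy]
      by_cases hl : r = l
      · subst hl
        simp [h, Ne.symm h]
      · by_cases hl' : i = l
        · subst hl'
          simp [h]
        · simp [hl, hl', Ne.symm hl']
  · intro j
    split_ifs
    · exact neg_ne_zero.2 (pow_ne_zero _ hx)
    · exact one_ne_zero

/-- The Jacobian determinant of each chart is `-1`. -/
theorem jac_det [Fact p.Prime] [CharP k p] (i : Fin p) : (jac k F i).det = -1 := by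
  have hx := xx_ne_zero k F i
  rw [jac_det_blocks, jac_det_x, jac_det_y, ← Finset.prod_mul_distrib]
  have h : ∀ j : Fin p, (if j = i then - (xx k F i) ^ (p - 1) else 1) *
      (if j = i then 1 else (xx k F i)⁻¹) =
      if j = i then - (xx k F i) ^ (p - 1) else (xx k F i)⁻¹ := by
    intro j; split_ifs <;> simp
  simp only [h]
  rw [Finset.prod_ite, Finset.prod_const, Finset.prod_const]
  have h1 : (Finset.univ.filter fun j : Fin p => j = i).card = 1 := by
    rw [Finset.filter_eq' , if_pos (Finset.mem_univ _), Finset.card_singleton]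
  have h2 : (Finset.univ.filter fun j : Fin p => ¬ j = i).card = p - 1 := by
    rw [Finset.filter_not, Finset.card_sdiff_of_subset (Finset.filter_subset _ _), h1]
    simp
  rw [h1, h2, pow_one, inv_pow, neg_mul, mul_inv_cancel₀ (pow_ne_zero _ hx)]

section psi

variable (K : Type u) [Field K] [Algebra k K] [Algebra K F] [IsScalarTower k K F]

/-- The partial derivative as a linear functional on the differentials of a subfield. -/
def deltaK (c : Fin 2 × Fin p) : Ω[K⁄k] →ₗ[K] F :=
  ((partialF k F c).compAlgebraMap K).liftKaehlerDifferential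

theorem deltaK_D (c : Fin 2 × Fin p) (a : K) :
    deltaK k F K c (D k K a) = partialF k F c (algebraMap K F a) := by
  simp [deltaK, Derivation.liftKaehlerDifferential_comp_D]

omit [Algebra k F] [Algebra k K] [IsScalarTower k K F] [IsScalarTower k (CoordRing p k) F]
  [Algebra (CoordRing p k) F] [IsFractionRing (CoordRing p k) F] [Field k] in
/-- The determinant as an alternating map over a subfield. -/
def detAlt (d : ℕ) : (Fin d → F) [⋀^Fin d]→ₗ[K] F :=
  { (Matrix.detRowAlternating (R := F) (n := Fin d)).toMultilinearMap.restrictScalars K with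
    map_eq_zero_of_eq' := fun v _ _ h hij =>
      (Matrix.detRowAlternating (R := F) (n := Fin d)).map_eq_zero_of_eq v h hij }

/-- The determinant functional on top forms. -/
def psi {d : ℕ} (e : Fin d ≃ Fin 2 × Fin p) : ⋀[K]^d Ω[K⁄k] →ₗ[K] F :=
  exteriorPower.alternatingMapLinearEquiv
    ((detAlt F K d).compLinearMap (LinearMap.pi fun c => deltaK k F K (e c)))

theorem psi_apply {d : ℕ} (e : Fin d ≃ Fin 2 × Fin p) (a : Fin d → K) :
    psi k F K e (exteriorPower.ιMulti K d fun i => D k K (a i)) =
      (Matrix.of fun r c => partialF k F (e c) (algebraMap K F (a r))).det := by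
  rw [psi, exteriorPower.alternatingMapLinearEquiv_apply_ιMulti,
    AlternatingMap.compLinearMap_apply]
  change Matrix.det _ = _
  congr 1
  ext r c
  simp [deltaK_D]

theorem psi_VV {d : ℕ} (e : Fin d ≃ Fin 2 × Fin p) (i : Fin p) (v : Fin 2 × Fin p → K)
    (hv : ∀ b, algebraMap K F (v b) = VV k F i b) [Fact p.Prime] [CharP k p] :
    psi k F K e (exteriorPower.ιMulti K d fun r => D k K (v (e r))) = -1 := by
  rw [psi_apply, ← jac_det k F i, ← Matrix.det_submatrix_equiv_self e]
  congr 1
  ext r c
  simp [jac, hv]

/-- The forms defined by all charts agree. -/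
theorem omega_eq {d : ℕ} (e : Fin d ≃ Fin 2 × Fin p) (i j : Fin p) (v w : Fin 2 × Fin p → K)
    (hv : ∀ b, algebraMap K F (v b) = VV k F i b) (hw : ∀ b, algebraMap K F (w b) = VV k F j b)
    (hfrac : ∀ a : K, ∃ c ∈ Algebra.adjoin k (Set.range v),
      ∃ s ∈ Algebra.adjoin k (Set.range v), s ≠ 0 ∧ a * s = c) [Fact p.Prime] [CharP k p] :
    exteriorPower.ιMulti K d (fun r => D k K (w (e r))) =
      exteriorPower.ιMulti K d fun r => D k K (v (e r)) := by
  have hr : Set.range (fun r => v (e r)) = Set.range v := by
    rw [← Function.comp_def, e.surjective.range_comp]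
  obtain ⟨c, hc⟩ := exists_smul_eq (k := k) (fun r => v (e r)) (fun r => w (e r))
    (by rw [hr]; exact hfrac)
  have h1 := congrArg (psi k F K e) hc
  rw [psi_VV k F K e j w hw, map_smul, psi_VV k F K e i v hv, Algebra.smul_def] at h1
  have h2 : algebraMap K F c = algebraMap K F 1 := by
    rw [map_one]; linear_combination h1
  rw [hc, (algebraMap K F).injective h2, one_smul]

end psi

end

end Pool.Agent.Lib.MP_d95e25_ag
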