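import Mathlib

/-!
# The grading of the Rees algebra
-/

open Polynomial

namespace Pool.Agent.Lib.MP_d95e25_ag

universe u

noncomputable section

variable {R : Type u} [CommRing R] (I : Ideal R)

/-- The homogeneous elements of degree `n` of the Rees algebra. -/
def reesGr (n : ℕ) : Submodule R (reesAlgebra I) :=
  Submodule.comap (reesAlgebra I).val.toLinearMap (LinearMap.range (monomial (R := R) n))

variable {I}

theorem mem_reesGr {n : ℕ} {b : reesAlgebra I} :
    b ∈ reesGr I n ↔ ∃ r : R, monomial n r = (b : R[X]) := Iff.rfl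

/-- The homogeneous component of degree `n`. -/
def reesComp (b : reesAlgebra I) (n : ℕ) : reesGr I n :=
  ⟨⟨monomial n ((b : R[X]).coeff n),
    reesAlgebra.monomial_mem.2 ((mem_reesAlgebra_iff I _).1 b.2 n)⟩, ⟨_, rfl⟩⟩

theorem reesComp_coe (b : reesAlgebra I) (n : ℕ) :
    (((reesComp b n : reesGr I n) : reesAlgebra I) : R[X]) = monomial n ((b : R[X]).coeff n) := rfl

theorem reesComp_add (b c : reesAlgebra I) (n : ℕ) :
    reesComp (b + c) n = reesComp b n + reesComp c n := by
  apply Subtype.ext
  apply Subtype.ext
  change monomial n ((b + c : R[X]).coeff n) =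
    monomial n ((b : R[X]).coeff n) + monomial n ((c : R[X]).coeff n)
  rw [coeff_add, map_add]

theorem reesComp_zero (n : ℕ) : reesComp (0 : reesAlgebra I) n = 0 := by
  apply Subtype.ext
  apply Subtype.ext
  change monomial n ((0 : R[X]).coeff n) = 0
  rw [coeff_zero, map_zero]

theorem reesComp_of_mem {m : ℕ} (x : reesGr I m) (n : ℕ) :
    reesComp (x : reesAlgebra I) n = (DirectSum.of (fun i => reesGr I i) m x) n := by
  obtain ⟨⟨b, hb⟩, ⟨r, hr⟩⟩ := x
  change monomial m r = b at hr
  subst hr
  by_cases h : m = n
  · subst h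
    rw [DirectSum.of_eq_same]
    apply Subtype.ext
    apply Subtype.ext
    change monomial m ((monomial m r).coeff m) = monomial m r
    rw [coeff_monomial_same]
  · rw [DirectSum.of_eq_of_ne _ _ _ (Ne.symm h)]
    apply Subtype.ext
    apply Subtype.ext
    change monomial n ((monomial m r).coeff n) = 0
    rw [coeff_monomial_of_ne _ (Ne.symm h), map_zero]

instance reesDecomposition : DirectSum.Decomposition (reesGr I) where
  decompose' b := ∑ n ∈ (b : R[X]).support, DirectSum.of (fun i => reesGr I i) n (reesComp b n)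
  left_inv b := by
    rw [map_sum]
    apply Subtype.ext
    simp only [DirectSum.coeAddMonoidHom_of, AddSubmonoidClass.coe_finsetSum, reesComp_coe]
    exact ((b : R[X]).as_sum_support).symm
  right_inv f := by
    have h1 : ∀ b : reesAlgebra I, ∀ n,
        (∑ m ∈ (b : R[X]).support, DirectSum.of (fun i => reesGr I i) m (reesComp b m)) n =
          reesComp b n := by
      intro b n
      rw [DFinsupp.finsetSum_apply]
      by_cases hn : n ∈ (b : R[X]).support
      · rw [Finset.sum_eq_single n]
        · exact DirectSum.of_eq_same _ _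
        · intro m _ hm
          exact DirectSum.of_eq_of_ne _ _ _ (Ne.symm hm)
        · intro h; exact absurd hn h
      · rw [Finset.sum_eq_zero]
        · apply Subtype.ext
          apply Subtype.ext
          rw [reesComp_coe, notMem_support_iff.1 hn, map_zero]
          rfl
        · intro m hm
          refine DirectSum.of_eq_of_ne _ _ _ ?_
          rintro rfl
          exact hn hm
    have h2 : ∀ f : DirectSum ℕ (fun i => reesGr I i), ∀ n,
        reesComp (DirectSum.coeAddMonoidHom (reesGr I) f) n = f n := by
      intro f n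
      induction f using DirectSum.induction_on with
      | zero => rw [map_zero, reesComp_zero]; rfl
      | of m x => rw [DirectSum.coeAddMonoidHom_of]; exact reesComp_of_mem x n
      | add x y hx hy => rw [map_add, reesComp_add, hx, hy]; rfl
    refine DFinsupp.ext fun n => ?_
    rw [h1, h2]

instance reesGradedMonoid : SetLike.GradedMonoid (reesGr I) where
  one_mem := ⟨1, rfl⟩
  mul_mem := by
    rintro i j x y ⟨r, hr⟩ ⟨s, hs⟩
    refine ⟨r * s, ?_⟩
    change monomial i r = (x : R[X]) at hr
    change monomial j s = (y : R[X]) at hs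
    change monomial (i + j) (r * s) = (x : R[X]) * (y : R[X])
    rw [← hr, ← hs, monomial_mul_monomial]

instance reesGradedAlgebra : GradedAlgebra (reesGr I) where

/-- The homogeneous element `a W^n` of the Rees algebra. -/
def reesMon (n : ℕ) (a : R) (ha : a ∈ I ^ n) : reesAlgebra I :=
  ⟨monomial n a, reesAlgebra.monomial_mem.2 ha⟩

theorem reesMon_mem (n : ℕ) (a : R) (ha : a ∈ I ^ n) : reesMon n a ha ∈ reesGr I n := ⟨a, rfl⟩

theorem exists_reesMon {n : ℕ} {b : reesAlgebra I} (hb : b ∈ reesGr I n) :
    ∃ a, ∃ ha : a ∈ I ^ n, b = reesMon n a ha := by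
  obtain ⟨r, hr⟩ := hb
  change monomial n r = (b : R[X]) at hr
  refine ⟨r, ?_, Subtype.ext hr.symm⟩
  rw [← reesAlgebra.monomial_mem, hr]
  exact b.2

theorem reesZero_surjective : Function.Surjective (algebraMap R (reesGr I 0)) := by
  rintro ⟨b, hb⟩
  obtain ⟨r, hr⟩ := hb
  refine ⟨r, ?_⟩
  apply Subtype.ext
  apply Subtype.ext
  exact hr

theorem reesFiniteType (hI : I.FG) : Algebra.FiniteType (reesGr I 0) (reesAlgebra I) := by
  have h1 : Algebra.FiniteType R (reesAlgebra I) :=
    ⟨(reesAlgebra I).fg_top.mpr (reesAlgebra.fg hI)⟩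
  refine (RingHom.finiteType_algebraMap (A := reesGr I 0) (B := reesAlgebra I)).1 ?_
  refine RingHom.FiniteType.of_comp_finiteType (f := algebraMap R (reesGr I 0)) ?_
  exact (RingHom.finiteType_algebraMap (A := R) (B := reesAlgebra I)).2 h1

end

end Pool.Agent.Lib.MP_d95e25_ag
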