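import Pool.Agent.Lib.MP_d95e25_ag.Blow

/-!
# Smoothness of the blowup
-/

open HomogeneousLocalization AlgebraicGeometry CategoryTheory

namespace Pool.Agent.Lib.MP_d95e25_ag

universe u

noncomputable section

variable (p : ℕ) (k : Type u) [Field k] [hp : Fact p.Prime] [CharP k p]

/-- The resolution. -/
abbrev resY : Scheme.{u} := blowY (II p k)

/-- The resolution morphism. -/
def resF : resY p k ⟶ quotientX p k := blow (II p k)

theorem strAway_smooth' (i : Fin p) :
    (strAway (xi p k i)).IsStandardSmoothOfRelativeDimension (2 * p) :=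
  strAway_smooth p k (FractionRing (CoordRing p k)) i

omit hp [CharP k p] in
theorem awayι_str (i : Fin p) : Proj.awayι (reesGr (II p k)) (xi p k i) (xi_mem p k i) one_pos ≫
    resF p k ≫ quotientXStr p k = Spec.map (CommRingCat.ofHom (strAway (xi p k i))) := by
  unfold resF quotientXStr
  rw [← Category.assoc, awayι_blow, ← Spec.map_comp]
  rfl

theorem resF_smooth : SmoothOfRelativeDimension (2 * p) (resF p k ≫ quotientXStr p k) := by
  have : IsZariskiLocalAtSource (@SmoothOfRelativeDimension.{u} (2 * p)) :=
    HasRingHomProperty.instIsZariskiLocalAtSource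
  have : MorphismProperty.RespectsIso (@SmoothOfRelativeDimension.{u} (2 * p)) :=
    MorphismProperty.IsLocalAtSource.toRespects (K := Scheme.zariskiPrecoverage)
  rw [IsZariskiLocalAtSource.iff_of_iSup_eq_top (P := @SmoothOfRelativeDimension (2 * p)) _
    (iSup_basicOpen p k)]
  intro i
  rw [← MorphismProperty.cancel_left_of_respectsIso (P := @SmoothOfRelativeDimension (2 * p))
    (Proj.basicOpenIsoSpec (reesGr (II p k)) (xi p k i) (xi_mem p k i) one_pos).inv,
    ← Category.assoc, ← Proj.awayι, awayι_str,
    HasRingHomProperty.Spec_iff (P := @SmoothOfRelativeDimension (2 * p))]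
  exact RingHom.locally_of RingHom.isStandardSmoothOfRelativeDimension_respectsIso _
    (strAway_smooth' p k i)

end

end Pool.Agent.Lib.MP_d95e25_ag
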