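import Pool.Agent.Lib.MP_d95e25_ag.Birat

/-!
# Local rings inside the function field
-/

open HomogeneousLocalization AlgebraicGeometry CategoryTheory TopologicalSpace

namespace Pool.Agent.Lib.MP_d95e25_ag

universe u

noncomputable section

section general

theorem app_lemma {Y : Scheme.{u}} {R A : CommRingCat.{u}} (U : Y.Opens) (f : Y ⟶ Spec R)
    (g : U.toScheme ⟶ Spec A) (s : A ⟶ Γ(Y, U)) (α : R ⟶ A) (hE : U.ι ≫ f = g ≫ Spec.map α)
    (hg : g.appTop = (Scheme.ΓSpecIso A).hom ≫ s ≫ U.topIso.inv) :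
    α ≫ s = (Scheme.ΓSpecIso R).inv ≫ f.appTop ≫ Y.presheaf.map (homOfLE le_top : U ⟶ ⊤).op := by
  have h1 := congrArg (fun g => Scheme.Hom.appTop g) hE
  simp only [Scheme.Hom.comp_appTop] at h1
  rw [hg] at h1
  have h2 : Y.presheaf.map (homOfLE le_top : U ⟶ ⊤).op = U.ι.appTop ≫ U.topIso.hom := by
    exact Y.presheaf.map_comp (homOfLE (x := U.ι ''ᵁ ⊤) le_top).op (eqToHom U.ι_image_top.symm).op
  rw [h2, reassoc_of% h1, U.topIso.inv_hom_id, Category.comp_id,
    ← Scheme.ΓSpecIso_inv_naturality_assoc, Iso.inv_hom_id_assoc]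

theorem app_lemma' {Y : Scheme.{u}} {R A : CommRingCat.{u}} (U : Y.Opens) (f : Y ⟶ Spec R)
    (g : U.toScheme ⟶ Spec A) (s : A ⟶ Γ(Y, U)) (α : R ⟶ A) (hE : U.ι ≫ f = g ≫ Spec.map α)
    (hg : g.appTop = (Scheme.ΓSpecIso A).hom ≫ s ≫ U.topIso.inv) (y : Y) (hy : y ∈ U) :
    α ≫ s ≫ Y.presheaf.germ U y hy = (Scheme.ΓSpecIso R).inv ≫ f.appTop ≫
      Y.presheaf.germ ⊤ y trivial := by
  have h := app_lemma U f g s α hE hg
  rw [← Category.assoc, h, Category.assoc, Category.assoc, TopCat.Presheaf.germ_res]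

/-- Elements of a local ring of a scheme are fractions of sections over an affine open
neighbourhood. -/
theorem stalk_fraction {Y : Scheme.{u}} {U : Y.Opens} (hU : IsAffineOpen U) {y : Y} (hy : y ∈ U)
    (a : Y.presheaf.stalk y) : ∃ c s : Γ(Y, U), IsUnit (Y.presheaf.germ U y hy s) ∧
      a * Y.presheaf.germ U y hy s = Y.presheaf.germ U y hy c := by
  let _ := Y.presheaf.algebra_section_stalk (⟨y, hy⟩ : U)
  have h := hU.isLocalization_stalk ⟨y, hy⟩
  obtain ⟨⟨c, s⟩, hcs⟩ := IsLocalization.surj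
    (hU.primeIdealOf ⟨y, hy⟩).asIdeal.primeCompl a
  exact ⟨c, s, IsLocalization.map_units (Y.presheaf.stalk y) s, hcs⟩

variable {X Y : Scheme.{u}} [IsIntegral Y]

/-- Sections over an open subset as rational functions. -/
def germF (U : Y.Opens) (h : genericPoint Y ∈ U) : Γ(Y, U) →+* Y.functionField :=
  (Y.presheaf.germ U (genericPoint Y) h).hom

theorem algebraMap_germ {U : Y.Opens} {y : Y} (hy : y ∈ U) (h : genericPoint Y ∈ U)
    (c : Γ(Y, U)) :
    algebraMap (Y.presheaf.stalk y) Y.functionField (Y.presheaf.germ U y hy c) = germF U h c := by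
  have : Nonempty U := ⟨⟨y, hy⟩⟩
  exact Scheme.algebraMap_germ_eq_germToFunctionField Y hy c

theorem localRing_germ {U : Y.Opens} {y : Y} (hy : y ∈ U) (h : genericPoint Y ∈ U)
    (c : Γ(Y, U)) : germF U h c ∈ localRing y := by
  rw [← algebraMap_germ hy h]
  exact ⟨_, rfl⟩

theorem localRing_fraction {U : Y.Opens} (hU : IsAffineOpen U) {y : Y} (hy : y ∈ U)
    (h : genericPoint Y ∈ U) {a : Y.functionField} (ha : a ∈ localRing y) :
    ∃ c s : Γ(Y, U), germF U h s ≠ 0 ∧ (germF U h s)⁻¹ ∈ localRing y ∧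
      a * germF U h s = germF U h c := by
  obtain ⟨b, rfl⟩ := ha
  obtain ⟨c, s, hs, hcs⟩ := stalk_fraction hU hy b
  have h1 : IsUnit (germF U h s) := by
    rw [← algebraMap_germ hy h]
    exact hs.map _
  refine ⟨c, s, h1.ne_zero, ?_, ?_⟩
  · obtain ⟨t, ht⟩ := hs.exists_right_inv
    refine ⟨t, ?_⟩
    rw [← algebraMap_germ hy h]
    refine eq_inv_of_mul_eq_one_right ?_
    rw [← map_mul, ht, map_one]
  · rw [← algebraMap_germ hy h, ← algebraMap_germ hy h, ← map_mul, hcs]

/-- The ring homomorphism from functions on `X` to rational functions on `Y`. -/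
def pullF (f : Y ⟶ X) (U : X.Opens) (h : f (genericPoint Y) ∈ U) : Γ(X, U) →+* Y.functionField :=
  (f.app U ≫ Y.presheaf.germ (f ⁻¹ᵁ U) (genericPoint Y) h).hom

theorem over_germ (f : Y ⟶ X) {U : X.Opens} {x : X} (hx : x ∈ U) (h : f (genericPoint Y) ⤳ x)
    (hU : f (genericPoint Y) ∈ U) (c : Γ(X, U)) :
    (X.presheaf.stalkSpecializes h ≫ f.stalkMap (genericPoint Y)).hom
      (X.presheaf.germ U x hx c) = pullF f U hU c := by
  have h1 : X.presheaf.germ U x hx ≫ X.presheaf.stalkSpecializes h ≫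
      f.stalkMap (genericPoint Y) = f.app U ≫ Y.presheaf.germ (f ⁻¹ᵁ U) (genericPoint Y) hU := by
    rw [← Category.assoc, TopCat.Presheaf.germ_stalkSpecializes, Scheme.Hom.germ_stalkMap]
  exact congrArg (fun g => g.hom c) h1

theorem localRingOver_germ (f : Y ⟶ X) {U : X.Opens} {x : X} (hx : x ∈ U)
    (h : f (genericPoint Y) ⤳ x) (hU : f (genericPoint Y) ∈ U) (c : Γ(X, U)) :
    pullF f U hU c ∈ localRingOver f x h := by
  rw [← over_germ f hx h hU]
  exact ⟨_, rfl⟩

theorem localRingOver_unit (f : Y ⟶ X) {U : X.Opens} {x : X} (hx : x ∈ U)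
    (h : f (genericPoint Y) ⤳ x) (hU : f (genericPoint Y) ∈ U) {s : Γ(X, U)}
    (hs : IsUnit (X.presheaf.germ U x hx s)) :
    pullF f U hU s ≠ 0 ∧ (pullF f U hU s)⁻¹ ∈ localRingOver f x h := by
  have h1 : IsUnit (pullF f U hU s) := by
    rw [← over_germ f hx h hU]
    exact hs.map _
  refine ⟨h1.ne_zero, ?_⟩
  obtain ⟨t, ht⟩ := hs.exists_right_inv
  refine ⟨t, ?_⟩
  rw [← over_germ f hx h hU]
  refine eq_inv_of_mul_eq_one_right ?_
  rw [← map_mul, ht, map_one]

theorem localRingOver_fraction (f : Y ⟶ X) {U : X.Opens} (hU' : IsAffineOpen U) {x : X}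
    (hx : x ∈ U) (h : f (genericPoint Y) ⤳ x) (hU : f (genericPoint Y) ∈ U)
    {a : Y.functionField} (ha : a ∈ localRingOver f x h) :
    ∃ c s : Γ(X, U), pullF f U hU s ≠ 0 ∧ (pullF f U hU s)⁻¹ ∈ localRingOver f x h ∧
      a * pullF f U hU s = pullF f U hU c := by
  obtain ⟨b, rfl⟩ := ha
  obtain ⟨c, s, hs, hcs⟩ := stalk_fraction hU' hx b
  obtain ⟨h1, h2⟩ := localRingOver_unit f hx h hU hs
  refine ⟨c, s, h1, h2, ?_⟩
  rw [← over_germ f hx h hU, ← over_germ f hx h hU, ← map_mul, hcs]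

end general

section special

variable (p : ℕ) (k : Type u) [Field k] [hp : Fact p.Prime] [CharP k p]

omit [CharP k p] in
theorem II_ne_bot : II p k ≠ ⊥ := by
  intro h
  have h1 := xR_mem p k ⟨0, hp.out.pos⟩
  rw [h] at h1
  exact xR_ne_zero p k _ h1

instance instIntegral : IsIntegral (resY p k) := isIntegral_blowY (II p k) (II_ne_bot p k)

/-- The open chart. -/
abbrev chartU (i : Fin p) : (resY p k).Opens := Proj.basicOpen (reesGr (II p k)) (xi p k i)

omit hp [CharP k p] in
theorem chartU_affine (i : Fin p) : IsAffineOpen (chartU p k i) :=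
  Proj.isAffineOpen_basicOpen (reesGr (II p k)) (xi p k i) (xi_mem p k i) one_pos

omit [CharP k p] in
theorem generic_mem (i : Fin p) : genericPoint (resY p k) ∈ chartU p k i := by
  have h1 : Nontrivial (Away (reesGr (II p k)) (xi p k i)) :=
    (evAway (evB_xi_ne p k (FractionRing (CoordRing p k)) i)).domain_nontrivial
  obtain ⟨P⟩ : Nonempty (PrimeSpectrum (Away (reesGr (II p k)) (xi p k i))) := inferInstance
  let P' : Spec (CommRingCat.of (Away (reesGr (II p k)) (xi p k i))) := P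
  have h2 : Proj.awayι (reesGr (II p k)) (xi p k i) (xi_mem p k i) one_pos P' ∈
      (Proj.awayι (reesGr (II p k)) (xi p k i) (xi_mem p k i) one_pos).opensRange := ⟨P', rfl⟩
  rw [Proj.opensRange_awayι (reesGr (II p k)) (xi p k i) (xi_mem p k i) one_pos] at h2
  exact ((genericPoint_spec (resY p k)).mem_open_set_iff (chartU p k i).isOpen).mpr
    ⟨_, trivial, h2⟩

/-- The ring of a chart maps to the function field. -/
def gammaA (i : Fin p) : Away (reesGr (II p k)) (xi p k i) →+* (resY p k).functionField :=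
  (Proj.awayToSection (reesGr (II p k)) (xi p k i) ≫
    (resY p k).presheaf.germ (chartU p k i) (genericPoint (resY p k)) (generic_mem p k i)).hom

/-- The ring of functions on `X` maps to the function field. -/
def rhoR : invariants p k →+* (resY p k).functionField :=
  ((Scheme.ΓSpecIso (CommRingCat.of (invariants p k))).inv ≫ (resF p k).appTop ≫
    (resY p k).presheaf.germ ⊤ (genericPoint (resY p k)) trivial).hom

omit hp [CharP k p] in
theorem chart_E (i : Fin p) : (chartU p k i).ι ≫ resF p k =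
      Proj.basicOpenToSpec (reesGr (II p k)) (xi p k i) ≫
        Spec.map (CommRingCat.ofHom (alphaHom (xi p k i))) := by
  have h0 := awayι_blow' (xi_mem p k i) one_pos
  rw [Proj.awayι, Category.assoc, Iso.inv_comp_eq, Proj.basicOpenIsoSpec_hom] at h0
  exact h0

omit [CharP k p] in
theorem gammaA_alpha (i : Fin p) (r : invariants p k) :
    gammaA p k i (alphaHom (xi p k i) r) = rhoR p k r := by
  have h2 : (Proj.basicOpenToSpec (reesGr (II p k)) (xi p k i)).appTop =
      (Scheme.ΓSpecIso _).hom ≫ Proj.awayToSection (reesGr (II p k)) (xi p k i) ≫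
      (Proj.basicOpen (reesGr (II p k)) (xi p k i)).topIso.inv :=
    Proj.basicOpenToSpec_app_top _ _
  have h3 := app_lemma' (chartU p k i) (resF p k) _ _ _ (chart_E p k i) h2 _ (generic_mem p k i)
  unfold rhoR
  rw [← h3]
  rfl

end special

end

end Pool.Agent.Lib.MP_d95e25_ag
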